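import Pool.Agent.TH915.UC.BT
import Pool.Agent.Y855.A10

/-!
The number of the primes `p ≤ x` with `q ∣ p - 1`, and Chebyshev's bounds.
-/

set_option autoImplicit false

open Finset

namespace Pool.Agent.J4H36

/-- the primes `p ≤ x` with `q ∣ p - 1` -/
def P1 (x q : ℕ) : Finset ℕ := (Icc 1 x).filter (fun p => p.Prime ∧ q ∣ p - 1)

theorem P1_card (x q : ℕ) (hx : 2 ≤ x) (hq : 0 < q) (hqx : q ^ 2 ≤ x) :
    ((P1 x q).card : ℝ) ≤ 88 * ((q : ℝ) / q.totient) * (x / (q * Real.log x)) := by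
  set N := x / q + 1 with hN
  have h1 : (P1 x q).card ≤ ((range N).filter (fun k => (1 + k * q).Prime)).card := by
    apply card_le_card_of_injOn (fun p => (p - 1) / q)
    · intro p hp
      have hp' : p ∈ P1 x q := hp
      unfold P1 at hp'
      rw [mem_filter, mem_Icc] at hp'
      obtain ⟨⟨h1, h2⟩, h3, h4⟩ := hp'
      change (p - 1) / q ∈ (range N).filter (fun k => (1 + k * q).Prime)
      rw [mem_filter, mem_range]
      refine ⟨?_, ?_⟩
      · have := Nat.div_le_div_right (c := q) (by omega : p - 1 ≤ x)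
        omega
      · rw [Nat.div_mul_cancel h4]
        have : 1 + (p - 1) = p := by omega
        rwa [this]
    · intro p hp p' hp' h
      have hp1 : p ∈ P1 x q := hp
      have hp2 : p' ∈ P1 x q := hp'
      unfold P1 at hp1 hp2
      rw [mem_filter, mem_Icc] at hp1 hp2
      have h : (p - 1) / q = (p' - 1) / q := h
      have e1 := Nat.div_mul_cancel hp1.2.2
      have e2 := Nat.div_mul_cancel hp2.2.2
      rw [h] at e1
      have : p - 1 = p' - 1 := e1.symm.trans e2
      omega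
  have hqx' : q ≤ x := by nlinarith
  have hN2 : 2 ≤ N := by
    have : 1 ≤ x / q := (Nat.one_le_div_iff hq).2 hqx'
    omega
  have h2 := Pool.Agent.TH915.UC.bt_gen 1 q N hq hN2
  have hq' : (0 : ℝ) < q := by exact_mod_cast hq
  have hx' : (2 : ℝ) ≤ x := by exact_mod_cast hx
  have hφ : (0 : ℝ) < q.totient := by exact_mod_cast Nat.totient_pos.2 hq
  have hlx : 0 < Real.log x := Real.log_pos (by linarith)
  have hxN : x < N * q := by
    rw [hN, mul_comm]
    exact Nat.lt_mul_div_succ x hq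
  have hNx : x ≤ N ^ 2 := by
    by_contra hcon
    have h3 : N ^ 2 < x := not_le.1 hcon
    have h4 : x * x < (N * q) * (N * q) := Nat.mul_lt_mul_of_lt_of_lt hxN hxN
    have h5 : (N * q) * (N * q) = N ^ 2 * q ^ 2 := by ring
    have h6 : N ^ 2 * q ^ 2 ≤ x * x := Nat.mul_le_mul h3.le hqx
    omega
  have hN0 : (2 : ℝ) ≤ N := by exact_mod_cast hN2
  have hlN : Real.log x ≤ 2 * Real.log N := by
    have h3 : (x : ℝ) ≤ (N : ℝ) ^ 2 := by exact_mod_cast hNx
    have h4 := Real.log_le_log (by linarith) h3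
    rw [Real.log_pow] at h4
    push_cast at h4
    exact h4
  have hlN0 : 0 < Real.log N := by linarith
  have hNle : (N : ℝ) ≤ 2 * (x / q) := by
    have h3 : ((x / q : ℕ) : ℝ) ≤ x / q := Nat.cast_div_le
    have h4 : (1 : ℝ) ≤ x / q := by
      rw [le_div_iff₀ hq', one_mul]
      exact_mod_cast hqx'
    rw [hN]
    push_cast
    linarith
  calc ((P1 x q).card : ℝ) ≤ (((range N).filter (fun k => (1 + k * q).Prime)).card : ℝ) := by
        exact_mod_cast h1
    _ ≤ 22 * ((q : ℝ) / q.totient) * N / Real.log N := h2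
    _ ≤ 22 * ((q : ℝ) / q.totient) * (2 * (x / q)) / (Real.log x / 2) := by
        apply div_le_div₀ (by positivity) _ (by positivity) (by linarith)
        exact mul_le_mul_of_nonneg_left hNle (by positivity)
    _ = _ := by field_simp; ring

theorem totient_prime_pow {l a : ℕ} (hl : l.Prime) (ha : 0 < a) :
    (((l ^ a : ℕ) : ℝ) / (l ^ a).totient) ≤ 2 := by
  have hl2 : (2 : ℝ) ≤ l := by exact_mod_cast hl.two_le
  rw [Nat.totient_prime_pow hl ha]
  have h1 : (((l - 1 : ℕ)) : ℝ) = l - 1 := by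
    rw [Nat.cast_sub hl.one_le]
    simp
  push_cast
  rw [h1]
  have h2 : (l : ℝ) ^ a = (l : ℝ) ^ (a - 1) * l := by
    rw [← pow_succ]
    congr 1
    omega
  have h3 : (0 : ℝ) < (l : ℝ) ^ (a - 1) := by positivity
  rw [h2, div_le_iff₀ (mul_pos h3 (by linarith))]
  nlinarith

theorem P1_pp (x l a : ℕ) (hx : 2 ≤ x) (hl : l.Prime) (ha : 0 < a) (hqx : (l ^ a) ^ 2 ≤ x) :
    ((P1 x (l ^ a)).card : ℝ) ≤ 176 * (x / ((l ^ a : ℕ) * Real.log x)) := by
  have h1 := P1_card x (l ^ a) hx (pow_pos hl.pos a) hqx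
  have h2 := totient_prime_pow hl ha
  have hx' : (2 : ℝ) ≤ x := by exact_mod_cast hx
  have hlx : 0 < Real.log x := Real.log_pos (by linarith)
  have h3 : (0 : ℝ) ≤ x / ((l ^ a : ℕ) * Real.log x) := by positivity
  nlinarith

theorem P1_one (x : ℕ) : (P1 x 1).card = Nat.primeCounting x := by
  rw [Nat.primeCounting, Nat.primeCounting', Nat.count_eq_card_filter_range]
  congr 1
  ext p
  unfold P1
  rw [mem_filter, mem_filter, mem_Icc, mem_range]
  constructor
  · rintro ⟨h1, h2, -⟩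
    exact ⟨by omega, h2⟩
  · rintro ⟨h1, h2⟩
    exact ⟨⟨h2.one_le, by omega⟩, h2, one_dvd _⟩

theorem pi_upper (x : ℕ) (hx : 2 ≤ x) :
    (Nat.primeCounting x : ℝ) ≤ 88 * (x / Real.log x) := by
  have h := P1_card x 1 hx one_pos (by omega)
  rw [P1_one] at h
  simpa using h

theorem pi_lower (x : ℕ) (hx : 3 ≤ x) :
    (x : ℝ) / 5 ≤ (Nat.primeCounting x : ℝ) * Real.log x := by
  have h1 := Chebyshev.psi_ge x
  have h2 := Chebyshev.psi_le_primeCounting_mul_log x
  have hx' : (3 : ℝ) ≤ x := by exact_mod_cast hx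
  have h3 : Real.log ((x : ℝ) + 1) ≤ (x + 1) / 4 + (2 * Real.log 2 - 1) := by
    have h4 : Real.log (((x : ℝ) + 1) / 4) ≤ ((x : ℝ) + 1) / 4 - 1 :=
      Real.log_le_sub_one_of_pos (by positivity)
    rw [Real.log_div (by positivity) (by norm_num)] at h4
    have h5 : Real.log 4 = 2 * Real.log 2 := by
      rw [show (4 : ℝ) = 2 ^ 2 by norm_num, Real.log_pow]
      norm_num
    linarith
  have h4 := Real.log_two_gt_d9
  have h5 := Real.log_two_lt_d9
  have h6 : (x : ℝ) / 5 ≤ x * Real.log 2 - Real.log (x + 1) := by nlinarith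
  linarith

end Pool.Agent.J4H36
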