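import Pool.Agent.J4H36.A1

/-!
The weights of the large prime factors of `p - 1`, on average over the primes `p ≤ x`.
-/

set_option autoImplicit false

open Finset

namespace Pool.Agent.J4H36

open Pool.Agent.Y855 (LF sum_inv_log)

theorem large_sum : ∃ C : ℝ, 0 < C ∧ ∀ z x : ℕ, 2 ≤ z → 3 ≤ x → z ≤ x →
    ∑ p ∈ P1 x 1, ∑ l ∈ LF z p, 2 * Real.log x / Real.log l ≤
      C * ((Nat.primeCounting x : ℝ) * (Real.log x / Real.log z)) := by
  classical
  obtain ⟨C, hC, hlog⟩ := sum_inv_log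
  refine ⟨24 + 352 * C * 5, by positivity, ?_⟩
  intro z x hz hx hzx
  have hx3 : (3 : ℝ) ≤ x := by exact_mod_cast hx
  have hL : 0 < Real.log x := Real.log_pos (by linarith)
  have hz2 : (2 : ℝ) ≤ z := by exact_mod_cast hz
  have hlz : 0 < Real.log z := Real.log_pos (by linarith)
  have hzx' : Real.log z ≤ Real.log x := Real.log_le_log (by linarith) (by exact_mod_cast hzx)
  have hratio : 1 ≤ Real.log x / Real.log z := (one_le_div hlz).2 hzx'
  set w := Nat.sqrt (Nat.sqrt x) with hwdef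
  have hw4 : w ^ 4 ≤ x := by
    have h1 : w * w ≤ Nat.sqrt x := Nat.sqrt_le _
    have h2 : Nat.sqrt x * Nat.sqrt x ≤ x := Nat.sqrt_le _
    calc w ^ 4 = (w * w) * (w * w) := by ring
      _ ≤ Nat.sqrt x * Nat.sqrt x := Nat.mul_le_mul h1 h1
      _ ≤ x := h2
  have hw : x < (w + 1) ^ 4 := by
    have h1 : Nat.sqrt x < (w + 1) * (w + 1) := Nat.lt_succ_sqrt _
    have h2 : x < (Nat.sqrt x + 1) * (Nat.sqrt x + 1) := Nat.lt_succ_sqrt _
    calc x < (Nat.sqrt x + 1) * (Nat.sqrt x + 1) := h2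
      _ ≤ ((w + 1) * (w + 1)) * ((w + 1) * (w + 1)) := Nat.mul_le_mul h1 h1
      _ = (w + 1) ^ 4 := by ring
  set g : ℕ → ℝ := fun l => 2 * Real.log x / Real.log l with hg
  have hmemP : ∀ p ∈ P1 x 1, p.Prime ∧ p ≤ x := by
    intro p hp
    unfold P1 at hp
    rw [mem_filter, mem_Icc] at hp
    exact ⟨hp.2.1, hp.1.2⟩
  have hsplit : ∑ p ∈ P1 x 1, ∑ l ∈ LF z p, g l =
      ∑ p ∈ P1 x 1, ∑ l ∈ (LF z p).filter (fun l => l ≤ w), g l +
      ∑ p ∈ P1 x 1, ∑ l ∈ (LF z p).filter (fun l => ¬ l ≤ w), g l := by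
    rw [← sum_add_distrib]
    apply sum_congr rfl
    intro p _
    rw [sum_filter_add_sum_filter_not]
  have hpart2 : ∑ p ∈ P1 x 1, ∑ l ∈ (LF z p).filter (fun l => ¬ l ≤ w), g l ≤
      24 * (P1 x 1).card := by
    have h1 : ∀ p ∈ P1 x 1, ∑ l ∈ (LF z p).filter (fun l => ¬ l ≤ w), g l ≤ 24 := by
      intro p hp
      obtain ⟨hpp, hpx⟩ := hmemP p hp
      have hp1 : 0 < p - 1 := by have := hpp.two_le; omega
      set s := (LF z p).filter (fun l => ¬ l ≤ w) with hs
      have hsmem : ∀ l ∈ s, l.Prime ∧ l ∣ p - 1 ∧ w + 1 ≤ l := by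
        intro l hl
        rw [hs, mem_filter] at hl
        have h2 := hl.1
        unfold LF at h2
        rw [mem_filter] at h2
        exact ⟨Nat.prime_of_mem_primeFactors h2.1, Nat.dvd_of_mem_primeFactors h2.1, by omega⟩
      have hcard : s.card ≤ 3 := by
        by_contra hcon
        have h2 : ∏ l ∈ s, l ∣ p - 1 := Finset.prod_primes_dvd _
          (fun l hl => (hsmem l hl).1.prime) fun l hl => (hsmem l hl).2.1
        have h3 := Nat.le_of_dvd hp1 h2
        have h4 : (w + 1) ^ s.card ≤ ∏ l ∈ s, l := by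
          rw [← prod_const]
          exact prod_le_prod' fun l hl => (hsmem l hl).2.2
        have h5 : (w + 1) ^ 4 ≤ (w + 1) ^ s.card := Nat.pow_le_pow_right (by omega) (by omega)
        omega
      have hterm : ∀ l ∈ s, g l ≤ 8 := by
        intro l hl
        obtain ⟨h2, h3, h4⟩ := hsmem l hl
        have hl2 : (2 : ℝ) ≤ l := by exact_mod_cast h2.two_le
        have hll : 0 < Real.log l := Real.log_pos (by linarith)
        simp only [hg]
        rw [div_le_iff₀ hll]
        have h5 : x ≤ l ^ 4 := hw.le.trans (Nat.pow_le_pow_left h4 4)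
        have h6 : (x : ℝ) ≤ (l : ℝ) ^ 4 := by exact_mod_cast h5
        have h7 := Real.log_le_log (by linarith) h6
        rw [Real.log_pow] at h7
        push_cast at h7
        linarith
      calc ∑ l ∈ s, g l ≤ ∑ _l ∈ s, (8 : ℝ) := sum_le_sum hterm
        _ = s.card * 8 := by rw [sum_const, nsmul_eq_mul]
        _ ≤ 3 * 8 := by
            apply mul_le_mul_of_nonneg_right _ (by norm_num)
            exact_mod_cast hcard
        _ = 24 := by norm_num
    calc ∑ p ∈ P1 x 1, ∑ l ∈ (LF z p).filter (fun l => ¬ l ≤ w), g l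
        ≤ ∑ _p ∈ P1 x 1, (24 : ℝ) := sum_le_sum h1
      _ = 24 * (P1 x 1).card := by rw [sum_const, nsmul_eq_mul, mul_comm]
  set Q := (Ioc z w).filter Nat.Prime with hQ
  have hpart1 : ∑ p ∈ P1 x 1, ∑ l ∈ (LF z p).filter (fun l => l ≤ w), g l =
      ∑ l ∈ Q, g l * (((P1 x 1).filter (fun p => l ∣ p - 1)).card : ℝ) := by
    have h1 : ∀ l ∈ Q, g l * (((P1 x 1).filter (fun p => l ∣ p - 1)).card : ℝ) =
        ∑ p ∈ (P1 x 1).filter (fun p => l ∣ p - 1), g l := by
      intro l _
      rw [sum_const, nsmul_eq_mul, mul_comm]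
    rw [sum_congr rfl h1]
    apply sum_comm'
    intro p l
    simp only [LF, hQ, mem_filter, mem_Ioc, Nat.mem_primeFactors]
    constructor
    · rintro ⟨h2, ⟨⟨h3, h4, h5⟩, h6⟩, h7⟩
      exact ⟨⟨h2, h4⟩, ⟨h6, h7⟩, h3⟩
    · rintro ⟨⟨h2, h4⟩, ⟨h6, h7⟩, h3⟩
      refine ⟨h2, ⟨⟨h3, h4, ?_⟩, h6⟩, h7⟩
      have := (hmemP p h2).1.two_le
      omega
  have hcardNS : ∀ l ∈ Q, (((P1 x 1).filter (fun p => l ∣ p - 1)).card : ℝ) ≤
      352 * (x / (l * Real.log x)) / 2 := by
    intro l hl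
    rw [hQ, mem_filter, mem_Ioc] at hl
    have h1 : (P1 x 1).filter (fun p => l ∣ p - 1) ⊆ P1 x (l ^ 1) := by
      intro p hp
      rw [mem_filter] at hp
      obtain ⟨hp1, hp2⟩ := hp
      unfold P1 at hp1 ⊢
      rw [mem_filter] at hp1 ⊢
      refine ⟨hp1.1, hp1.2.1, ?_⟩
      rwa [pow_one]
    have h2 : (l ^ 1) ^ 2 ≤ x := by
      rw [pow_one]
      calc l ^ 2 ≤ w ^ 2 := Nat.pow_le_pow_left hl.1.2 2
        _ ≤ w ^ 4 := Nat.pow_le_pow_right (by have := hl.2.pos; omega) (by norm_num)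
        _ ≤ x := hw4
    have h3 := P1_pp x l 1 (by omega) hl.2 one_pos h2
    rw [pow_one] at h3
    have h4 : (((P1 x 1).filter (fun p => l ∣ p - 1)).card : ℝ) ≤ ((P1 x l).card : ℝ) := by
      have := card_le_card h1
      rw [pow_one] at this
      exact_mod_cast this
    linarith
  have hgb : ∀ l ∈ Q, 0 ≤ g l := by
    intro l hl
    rw [hQ, mem_filter] at hl
    have hl2 : (2 : ℝ) ≤ l := by exact_mod_cast hl.2.two_le
    have hll : 0 < Real.log l := Real.log_pos (by linarith)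
    simp only [hg]
    positivity
  have hmain : ∑ l ∈ Q, g l * (((P1 x 1).filter (fun p => l ∣ p - 1)).card : ℝ) ≤
      352 * C * (x / Real.log z) := by
    calc ∑ l ∈ Q, g l * (((P1 x 1).filter (fun p => l ∣ p - 1)).card : ℝ)
        ≤ ∑ l ∈ Q, 352 * x * (1 / ((l : ℝ) * Real.log l)) := by
          apply sum_le_sum
          intro l hl
          have h1 := hcardNS l hl
          have h2 := hgb l hl
          rw [hQ, mem_filter] at hl
          have hl2 : (2 : ℝ) ≤ l := by exact_mod_cast hl.2.two_le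
          have hll : 0 < Real.log l := Real.log_pos (by linarith)
          calc g l * (((P1 x 1).filter (fun p => l ∣ p - 1)).card : ℝ)
              ≤ g l * (352 * (x / (l * Real.log x)) / 2) := mul_le_mul_of_nonneg_left h1 h2
            _ = 352 * x * (1 / ((l : ℝ) * Real.log l)) := by
              simp only [hg]
              field_simp
      _ = 352 * x * ∑ l ∈ Q, 1 / ((l : ℝ) * Real.log l) := by rw [mul_sum]
      _ ≤ 352 * x * (C / Real.log z) := by
          apply mul_le_mul_of_nonneg_left _ (by positivity)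
          apply hlog z hz
          intro l hl
          rw [hQ, mem_filter, mem_Ioc] at hl
          exact ⟨hl.2, hl.1.1⟩
      _ = _ := by ring
  have hpi := pi_lower x hx
  have hpi0 : (0 : ℝ) ≤ Nat.primeCounting x := Nat.cast_nonneg _
  rw [hsplit, hpart1]
  have h5 : 352 * C * (x / Real.log z) ≤
      352 * C * 5 * ((Nat.primeCounting x : ℝ) * (Real.log x / Real.log z)) := by
    have h6 : (x : ℝ) / Real.log z ≤ 5 * ((Nat.primeCounting x : ℝ) * (Real.log x / Real.log z)) := by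
      rw [mul_div_assoc', mul_div_assoc', div_le_div_iff_of_pos_right hlz]
      linarith
    calc 352 * C * (x / Real.log z) ≤ 352 * C *
          (5 * ((Nat.primeCounting x : ℝ) * (Real.log x / Real.log z))) :=
          mul_le_mul_of_nonneg_left h6 (by positivity)
      _ = _ := by ring
  have h6 : 24 * ((P1 x 1).card : ℝ) ≤
      24 * ((Nat.primeCounting x : ℝ) * (Real.log x / Real.log z)) := by
    rw [P1_one]
    apply mul_le_mul_of_nonneg_left _ (by norm_num)
    calc (Nat.primeCounting x : ℝ) = Nat.primeCounting x * 1 := (mul_one _).symm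
      _ ≤ _ := mul_le_mul_of_nonneg_left hratio hpi0
  linarith

end Pool.Agent.J4H36
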