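import Pool.Agent.J4H36.A2
import Pool.Agent.Y855.A7

/-!
The sum of the numbers of the primes at which the index has a large prime factor, over an independent
set of integers.
-/

set_option autoImplicit false

open Finset

namespace Pool.Agent.J4H36

open Pool.Agent.Y855 (LF Exc MI few_powers Exc_card card_dvd_le)

open Classical in
/-- the primes `p ≤ x` for which the index of `n` has a prime factor exceeding `z` -/
noncomputable def BadA (n : ℤ) (x z : ℕ) : Finset ℕ :=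
  (P1 x 1).filter (fun p => ¬ (p : ℤ) ∣ n ∧ ∃ l : ℕ, l.Prime ∧ z < l ∧ l ∣ p - 1 ∧
    (n : ZMod p) ^ ((p - 1) / l) = 1)

open Classical in
/-- the primes dividing an element of `M` -/
noncomputable def DM (x : ℕ) (M : Finset ℤ) : Finset ℕ :=
  (P1 x 1).filter (fun p => ∃ n ∈ M, (p : ℤ) ∣ n)

theorem mem_P1_one {x p : ℕ} : p ∈ P1 x 1 ↔ p.Prime ∧ p ≤ x := by
  unfold P1
  rw [mem_filter, mem_Icc]
  constructor
  · rintro ⟨h1, h2, -⟩
    exact ⟨h2, h1.2⟩
  · rintro ⟨h1, h2⟩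
    exact ⟨⟨h1.one_le, h2⟩, h1, one_dvd _⟩

theorem DM_card (x : ℕ) (M : Finset ℤ) (E : ℕ) (hM : ∀ n ∈ M, n ≠ 0 ∧ n.natAbs ≤ 2 ^ E) :
    (DM x M).card ≤ M.card * E := by
  classical
  have hsub : DM x M ⊆ M.biUnion (fun n => (P1 x 1).filter (fun p : ℕ => (p : ℤ) ∣ n)) := by
    intro p hp
    unfold DM at hp
    rw [mem_filter] at hp
    obtain ⟨h1, n, hn, h2⟩ := hp
    rw [mem_biUnion]
    exact ⟨n, hn, mem_filter.2 ⟨h1, h2⟩⟩
  refine (card_le_card hsub).trans (card_biUnion_le.trans ?_)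
  calc ∑ n ∈ M, ((P1 x 1).filter (fun p : ℕ => (p : ℤ) ∣ n)).card ≤ ∑ _n ∈ M, E := by
        apply sum_le_sum
        intro n hn
        apply card_dvd_le n (hM n hn).1 E (hM n hn).2
        intro p hp
        rw [mem_filter] at hp
        exact ⟨(mem_P1_one.1 hp.1).1, hp.2⟩
    _ = M.card * E := by rw [sum_const, smul_eq_mul]

theorem bad_sumA (M : Finset ℤ) (x z R : ℕ) (hx : 3 ≤ x) (hz : 2 ≤ z) (hR : x ^ 2 ≤ z ^ R) :
    ∑ n ∈ M, ((BadA n x z).card : ℝ) ≤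
      ∑ p ∈ P1 x 1, ∑ l ∈ LF z p, 2 * Real.log x / Real.log l +
      M.card * (∑ r ∈ Icc 2 R, ((Exc x r M).card : ℝ) + (DM x M).card) := by
  classical
  set EE : Finset ℕ := (Icc 2 R).biUnion (fun r => Exc x r M) with hEE
  have hdc : ∑ n ∈ M, ((BadA n x z).card : ℝ) = ∑ p ∈ P1 x 1,
      ((M.filter (fun n : ℤ => ¬ (p : ℤ) ∣ n ∧ ∃ l : ℕ, l.Prime ∧ z < l ∧ l ∣ p - 1 ∧
        (n : ZMod p) ^ ((p - 1) / l) = 1)).card : ℝ) := by
    unfold BadA
    simp only [card_filter]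
    push_cast
    rw [sum_comm]
  rw [hdc]
  have hlx : 0 ≤ Real.log x := Real.log_natCast_nonneg x
  have hpt : ∀ p ∈ P1 x 1, ((M.filter (fun n : ℤ => ¬ (p : ℤ) ∣ n ∧ ∃ l : ℕ, l.Prime ∧ z < l ∧
        l ∣ p - 1 ∧ (n : ZMod p) ^ ((p - 1) / l) = 1)).card : ℝ) ≤
      ∑ l ∈ LF z p, 2 * Real.log x / Real.log l +
        M.card * ((if p ∈ EE then (1 : ℝ) else 0) + (if p ∈ DM x M then (1 : ℝ) else 0)) := by
    intro p hp
    have hsum0 : 0 ≤ ∑ l ∈ LF z p, 2 * Real.log x / Real.log l :=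
      sum_nonneg fun l _ => div_nonneg (by positivity) (Real.log_natCast_nonneg l)
    have hM0 : (0 : ℝ) ≤ M.card := Nat.cast_nonneg _
    have hle : ((M.filter (fun n : ℤ => ¬ (p : ℤ) ∣ n ∧ ∃ l : ℕ, l.Prime ∧ z < l ∧
        l ∣ p - 1 ∧ (n : ZMod p) ^ ((p - 1) / l) = 1)).card : ℝ) ≤ M.card := by
      exact_mod_cast card_filter_le _ _
    by_cases hpE : p ∈ EE
    · rw [if_pos hpE]
      have h1 : (0 : ℝ) ≤ (if p ∈ DM x M then (1 : ℝ) else 0) := by split_ifs <;> norm_num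
      nlinarith
    by_cases hpD : p ∈ DM x M
    · rw [if_pos hpD, if_neg hpE, zero_add, mul_one]
      linarith
    rw [if_neg hpE, if_neg hpD, add_zero, mul_zero, add_zero]
    obtain ⟨hpp, hpx⟩ := mem_P1_one.1 hp
    have hnd : ∀ n ∈ M, ¬ (p : ℤ) ∣ n := by
      intro n hn h
      apply hpD
      unfold DM
      exact mem_filter.2 ⟨hp, n, hn, h⟩
    have hEr : ∀ r ∈ Icc 2 R, p ∉ Exc x r M := by
      intro r hr h
      exact hpE (mem_biUnion.2 ⟨r, hr, h⟩)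
    have hsub : M.filter (fun n : ℤ => ¬ (p : ℤ) ∣ n ∧ ∃ l : ℕ, l.Prime ∧ z < l ∧ l ∣ p - 1 ∧
        (n : ZMod p) ^ ((p - 1) / l) = 1) ⊆
        (LF z p).biUnion (fun l => M.filter (fun n : ℤ => (n : ZMod p) ^ ((p - 1) / l) = 1)) := by
      intro n hn
      rw [mem_filter] at hn
      obtain ⟨hnM, _, l, hl, hl3, hlp, hln⟩ := hn
      rw [mem_biUnion]
      refine ⟨l, ?_, mem_filter.2 ⟨hnM, hln⟩⟩
      unfold LF
      rw [mem_filter, Nat.mem_primeFactors]
      exact ⟨⟨hl, hlp, by have := hpp.two_le; omega⟩, hl3⟩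
    have h1 : ((M.filter (fun n : ℤ => ¬ (p : ℤ) ∣ n ∧ ∃ l : ℕ, l.Prime ∧ z < l ∧ l ∣ p - 1 ∧
        (n : ZMod p) ^ ((p - 1) / l) = 1)).card : ℝ) ≤
        ∑ l ∈ LF z p, ((M.filter (fun n : ℤ => (n : ZMod p) ^ ((p - 1) / l) = 1)).card : ℝ) := by
      exact_mod_cast (card_le_card hsub).trans card_biUnion_le
    refine h1.trans (sum_le_sum fun l hl => ?_)
    unfold LF at hl
    rw [mem_filter] at hl
    exact few_powers M x z R hx hz hR p hpx hpp hnd hEr l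
      (Nat.prime_of_mem_primeFactors hl.1) (Nat.dvd_of_mem_primeFactors hl.1) hl.2
  refine (sum_le_sum hpt).trans ?_
  rw [sum_add_distrib, ← mul_sum, sum_add_distrib]
  have hM0 : (0 : ℝ) ≤ M.card := Nat.cast_nonneg _
  apply add_le_add le_rfl
  apply mul_le_mul_of_nonneg_left _ hM0
  apply add_le_add
  · have h2 : ∑ p ∈ P1 x 1, (if p ∈ EE then (1 : ℝ) else 0) ≤ (EE.card : ℝ) := by
      rw [← sum_filter, sum_const, nsmul_eq_mul, mul_one]
      exact_mod_cast card_le_card (by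
        intro p hp
        exact (mem_filter.1 hp).2)
    refine h2.trans ?_
    rw [hEE]
    exact_mod_cast card_biUnion_le
  · rw [← sum_filter, sum_const, nsmul_eq_mul, mul_one]
    exact_mod_cast card_le_card (by
      intro p hp
      exact (mem_filter.1 hp).2)

/-- the exceptional sets -/
theorem Exc_T (x r : ℕ) (hx : 1 ≤ x) (hr : 2 ≤ r) (M : Finset ℤ) (h0 : ∀ n ∈ M, n ≠ 0)
    (hM : MI M) (T : ℝ) (hT : 1 ≤ T) (hMT : (M.card : ℝ) ≤ T)
    (hMH : ∀ n ∈ M, |(n : ℝ)| ≤ Real.exp T) :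
    ((Exc x r M).card : ℝ) ≤ 6 * r * (5 * T) ^ (r + 1) * (x : ℝ) ^ (1 - 1 / (r : ℝ)) := by
  have hx1 : (1 : ℝ) ≤ x := by exact_mod_cast hx
  have hx0 : (0 : ℝ) < x := by linarith
  have hr2 : (2 : ℝ) ≤ r := by exact_mod_cast hr
  have hr0 : (0 : ℝ) < r := by linarith
  set a : ℝ := (x : ℝ) ^ (((r : ℝ) - 2) / ((r : ℝ) * r)) with ha
  have hexp0 : 0 ≤ ((r : ℝ) - 2) / ((r : ℝ) * r) := div_nonneg (by linarith) (by positivity)
  have ha1 : 1 ≤ a := Real.one_le_rpow hx1 hexp0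
  have ha0 : 0 < a := by linarith
  set A : ℕ := ⌊a⌋₊ + 1 with hA
  have hAa : a < A := by
    rw [hA]
    push_cast
    exact Nat.lt_floor_add_one a
  have hA2 : (A : ℝ) ≤ 2 * a := by
    rw [hA]
    push_cast
    have := Nat.floor_le ha0.le
    linarith
  have hAx : x ^ (r - 2) < A ^ (r * r) := by
    have h1 : ((x ^ (r - 2) : ℕ) : ℝ) < ((A ^ (r * r) : ℕ) : ℝ) := by
      push_cast
      calc (x : ℝ) ^ (r - 2) = a ^ (r * r) := by
            rw [ha, ← Real.rpow_natCast, ← Real.rpow_natCast, ← Real.rpow_mul hx0.le]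
            congr 1
            rw [Nat.cast_sub hr]
            push_cast
            field_simp
        _ < (A : ℝ) ^ (r * r) := pow_lt_pow_left₀ hAa ha0.le (by positivity)
    exact_mod_cast h1
  set H : ℕ := ⌊Real.exp T⌋₊ with hH
  have hexpT : 1 ≤ Real.exp T := Real.one_le_exp (by linarith)
  have hH1 : 1 ≤ H := by
    rw [hH]
    exact Nat.floor_pos.2 hexpT
  have hHM : ∀ n ∈ M, n.natAbs ≤ H := by
    intro n hn
    rw [hH]
    apply Nat.le_floor
    rw [Nat.cast_natAbs]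
    push_cast
    exact hMH n hn
  have hlogH : (Nat.log 2 H : ℝ) ≤ 3 / 2 * T := by
    have h1 : (2 : ℝ) ^ (Nat.log 2 H) ≤ H := by
      exact_mod_cast Nat.pow_log_le_self 2 (by omega)
    have h2 : (H : ℝ) ≤ Real.exp T := Nat.floor_le (by positivity)
    have h3 := Real.log_le_log (by positivity) (h1.trans h2)
    rw [Real.log_pow, Real.log_exp] at h3
    have h4 := Real.log_two_gt_d9
    nlinarith [(Nat.cast_nonneg (Nat.log 2 H) : (0 : ℝ) ≤ (Nat.log 2 H : ℝ))]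
  have h := Exc_card x r hx hr M h0 hM H A hH1 hHM hAx
  have h' : ((Exc x r M).card : ℝ) ≤ (M.card : ℝ) ^ r *
      ((2 * A + 1) ^ r * (1 + (Nat.log 2 H + 1) * (r * A))) := by exact_mod_cast h
  have hM0 : (0 : ℝ) ≤ M.card := Nat.cast_nonneg _
  have e1 : (2 * (A : ℝ) + 1) ^ r ≤ (5 * a) ^ r := pow_le_pow_left₀ (by positivity) (by linarith) _
  have hTra : 1 ≤ T * r * a := by
    have : 1 ≤ T * r := by nlinarith
    nlinarith
  have e2 : 1 + ((Nat.log 2 H : ℝ) + 1) * (r * A) ≤ 6 * (T * r * a) := by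
    have h3 : ((Nat.log 2 H : ℝ) + 1) ≤ 5 / 2 * T := by linarith
    have h4 : ((Nat.log 2 H : ℝ) + 1) * (r * A) ≤ 5 / 2 * T * (r * (2 * a)) := by
      apply mul_le_mul h3 _ (by positivity) (by positivity)
      exact mul_le_mul_of_nonneg_left hA2 hr0.le
    linarith
  have e3 : (M.card : ℝ) ^ r ≤ T ^ r := pow_le_pow_left₀ hM0 hMT _
  have e4 : a ^ (r + 1) ≤ (x : ℝ) ^ (1 - 1 / (r : ℝ)) := by
    rw [ha, ← Real.rpow_natCast, ← Real.rpow_mul hx0.le]
    apply Real.rpow_le_rpow_of_exponent_le hx1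
    push_cast
    rw [div_mul_eq_mul_div, div_le_iff₀ (by positivity)]
    have : (1 - 1 / (r : ℝ)) * (r * r) = r * r - r := by field_simp
    rw [this]
    nlinarith
  calc ((Exc x r M).card : ℝ) ≤ (M.card : ℝ) ^ r *
      ((2 * A + 1) ^ r * (1 + (Nat.log 2 H + 1) * (r * A))) := h'
    _ ≤ T ^ r * ((5 * a) ^ r * (6 * (T * r * a))) := by
        apply mul_le_mul e3 _ (by positivity) (by positivity)
        exact mul_le_mul e1 e2 (by positivity) (by positivity)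
    _ = 6 * r * (T * (5 * T) ^ r) * a ^ (r + 1) := by
        rw [mul_pow, mul_pow, pow_succ a]
        ring
    _ ≤ 6 * r * ((5 * T) * (5 * T) ^ r) * (x : ℝ) ^ (1 - 1 / (r : ℝ)) := by
        apply mul_le_mul _ e4 (by positivity) (by positivity)
        apply mul_le_mul_of_nonneg_left _ (by positivity)
        apply mul_le_mul_of_nonneg_right _ (by positivity)
        linarith
    _ = _ := by ring

end Pool.Agent.J4H36
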