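import Pool.Agent.J4H36.A3

/-!
The total number of bad primes over an independent set.
-/

set_option autoImplicit false

open Finset

namespace Pool.Agent.J4H36

open Pool.Agent.Y855 (LF Exc MI)

theorem bad_totalA : ∃ C : ℝ, 0 < C ∧ ∀ (x z : ℕ) (T : ℝ) (M : Finset ℤ), 3 ≤ x → 2 ≤ z → z ≤ x →
    Real.log x ≤ T → 3 ≤ T → 100 * (Real.log x * Real.log T) ≤ (Real.log z) ^ 2 →
    (∀ n ∈ M, n ≠ 0) → MI M → (M.card : ℝ) ≤ T → (∀ n ∈ M, |(n : ℝ)| ≤ Real.exp T) →
    ∑ n ∈ M, ((BadA n x z).card : ℝ) ≤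
      C * ((Nat.primeCounting x : ℝ) * (Real.log x / Real.log z)) := by
  classical
  obtain ⟨C, hC, hlarge⟩ := large_sum
  refine ⟨C + 16, by positivity, ?_⟩
  intro x z T M hx hz hzx hLT hT3 hcond h0 hM hMT hMH
  set L := Real.log x with hL
  set ℓ := Real.log z with hℓ
  set t := Real.log T with ht
  have hx3 : (3 : ℝ) ≤ x := by exact_mod_cast hx
  have hx0 : (0 : ℝ) < x := by linarith
  have hx1 : (1 : ℝ) ≤ x := by linarith
  have hT0 : 0 < T := by linarith
  have ht1 : 1 ≤ t := by
    rw [ht, Real.le_log_iff_exp_le hT0]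
    have := Real.exp_one_lt_d9
    linarith
  have hL1 : 1 ≤ L := by
    rw [hL, Real.le_log_iff_exp_le hx0]
    have := Real.exp_one_lt_d9
    linarith
  have hL0 : 0 < L := by linarith
  have hz2 : (2 : ℝ) ≤ z := by exact_mod_cast hz
  have hℓ0 : 0 < ℓ := Real.log_pos (by linarith)
  have hℓL : ℓ ≤ L := Real.log_le_log (by linarith) (by exact_mod_cast hzx)
  have hratio : 1 ≤ L / ℓ := (one_le_div hℓ0).2 hℓL
  have h100 : 100 * t ≤ ℓ := by
    by_contra hcon
    have h1 : ℓ < 100 * t := not_le.1 hcon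
    have h2 : ℓ ^ 2 < 100 * (L * t) := by nlinarith
    linarith
  have hTexp : T = Real.exp t := (Real.exp_log hT0).symm
  have hTℓ : T ≤ Real.exp (ℓ / 100) := by
    rw [hTexp]
    exact Real.exp_le_exp.2 (by linarith)
  have hLℓ : L ≤ Real.exp (ℓ / 100) := hLT.trans hTℓ
  have hxL : (x : ℝ) = Real.exp L := (Real.exp_log hx0).symm
  set R : ℕ := ⌈2 * (L / ℓ)⌉₊ with hR
  have hR1 : 2 * (L / ℓ) ≤ R := Nat.le_ceil _
  have hR2 : (R : ℝ) ≤ 3 * (L / ℓ) := by
    have := Nat.ceil_lt_add_one (a := 2 * (L / ℓ)) (by linarith)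
    rw [← hR] at this
    linarith
  have hRz : x ^ 2 ≤ z ^ R := by
    have h1 : (x : ℝ) ^ 2 ≤ (z : ℝ) ^ R := by
      rw [← Real.log_le_log_iff (by positivity) (by positivity), Real.log_pow, Real.log_pow, ← hL,
        ← hℓ]
      push_cast
      have h2 : 2 * (L / ℓ) * ℓ ≤ R * ℓ := mul_le_mul_of_nonneg_right hR1 hℓ0.le
      have h3 : 2 * (L / ℓ) * ℓ = 2 * L := by field_simp
      linarith
    exact_mod_cast h1
  have hsum := bad_sumA M x z R hx hz hRz
  have hlg := hlarge z x hz hx hzx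
  rw [← hL, ← hℓ] at hlg
  have hpi := pi_lower x hx
  rw [← hL] at hpi
  have hπ : (x : ℝ) / L ≤ 5 * Nat.primeCounting x := by
    rw [div_le_iff₀ hL0]
    linarith
  have hterm : ∀ r ∈ Icc 2 R, ((Exc x r M).card : ℝ) ≤ x * Real.exp (-(3 / 20 * ℓ)) := by
    intro r hr
    rw [mem_Icc] at hr
    have hr2 : (2 : ℝ) ≤ r := by exact_mod_cast hr.1
    have hr0 : (0 : ℝ) < r := by linarith
    have hrR : (r : ℝ) ≤ R := by exact_mod_cast hr.2
    have h1 := Exc_T x r (by omega) hr.1 M h0 hM T (by linarith) hMT hMH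
    have h2 : 6 * (r : ℝ) ≤ Real.exp (2 * r * t) := by
      have h3 : (2 * (r : ℝ) - 4) + 1 ≤ Real.exp (2 * r - 4) := Real.add_one_le_exp _
      have h4 : Real.exp (2 * (r : ℝ)) = Real.exp (2 * r - 4) * Real.exp 4 := by
        rw [← Real.exp_add]
        congr 1
        ring
      have h5 : (16 : ℝ) ≤ Real.exp 4 := by
        have h6 := Real.exp_one_gt_d9
        have h7 : Real.exp 4 = (Real.exp 1) ^ 4 := by
          rw [← Real.exp_nat_mul]
          norm_num
        rw [h7]
        have h8 : (2 : ℝ) ^ 4 ≤ (Real.exp 1) ^ 4 := pow_le_pow_left₀ (by norm_num) (by linarith) 4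
        linarith
      have h6 : Real.exp (2 * (r : ℝ)) ≤ Real.exp (2 * r * t) := Real.exp_le_exp.2 (by nlinarith)
      have h7 : (2 * (r : ℝ) - 3) * 16 ≤ Real.exp (2 * r - 4) * Real.exp 4 := by
        apply mul_le_mul (by linarith) h5 (by norm_num) (Real.exp_pos _).le
      linarith
    have h3 : (5 * T) ^ (r + 1) ≤ Real.exp (4 * r * t) := by
      have h4 : 5 * T ≤ Real.exp (8 / 3 * t) := by
        have h5 : (5 : ℝ) ≤ Real.exp (5 / 3) := by
          have h6 : Real.exp (5 / 3) = Real.exp 1 * Real.exp (2 / 3) := by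
            rw [← Real.exp_add]
            norm_num
          have h7 := Real.exp_one_gt_d9
          have h8 := Real.quadratic_le_exp_of_nonneg (show (0 : ℝ) ≤ 2 / 3 by norm_num)
          have h9 : (1 : ℝ) + 2 / 3 + (2 / 3) ^ 2 / 2 ≤ Real.exp (2 / 3) := h8
          rw [h6]
          nlinarith
        calc 5 * T ≤ Real.exp (5 / 3) * Real.exp t := by
              rw [hTexp]
              exact mul_le_mul_of_nonneg_right h5 (Real.exp_pos _).le
          _ = Real.exp (5 / 3 + t) := (Real.exp_add _ _).symm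
          _ ≤ Real.exp (8 / 3 * t) := Real.exp_le_exp.2 (by linarith)
      calc (5 * T) ^ (r + 1) ≤ (Real.exp (8 / 3 * t)) ^ (r + 1) :=
            pow_le_pow_left₀ (by positivity) h4 _
        _ = Real.exp (((r + 1 : ℕ) : ℝ) * (8 / 3 * t)) := by rw [← Real.exp_nat_mul]
        _ ≤ Real.exp (4 * r * t) := by
            apply Real.exp_le_exp.2
            push_cast
            nlinarith
    have h4 : (x : ℝ) ^ (1 - 1 / (r : ℝ)) = x * Real.exp (-(L / r)) := by
      rw [Real.rpow_sub hx0, Real.rpow_one, Real.exp_neg, ← div_eq_mul_inv]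
      congr 1
      rw [Real.rpow_def_of_pos hx0, ← hL]
      congr 1
      ring
    have h5 : ℓ / 3 ≤ L / r := by
      rw [div_le_div_iff₀ (by norm_num) hr0]
      have h6 : (r : ℝ) ≤ 3 * (L / ℓ) := by linarith
      have h7 : (r : ℝ) * ℓ ≤ 3 * (L / ℓ) * ℓ := mul_le_mul_of_nonneg_right h6 hℓ0.le
      have h8 : 3 * (L / ℓ) * ℓ = 3 * L := by field_simp
      linarith
    have h6 : 6 * r * t ≤ 9 / 50 * ℓ := by
      have h7 : (r : ℝ) ≤ 3 * (L / ℓ) := by linarith
      have h8 : 6 * r * t ≤ 6 * (3 * (L / ℓ)) * t := by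
        apply mul_le_mul_of_nonneg_right _ (by linarith)
        linarith
      have h9 : 6 * (3 * (L / ℓ)) * t = (100 * (L * t)) * (9 / 50) / ℓ := by
        field_simp
        ring
      rw [h9] at h8
      refine h8.trans ?_
      rw [div_le_iff₀ hℓ0]
      nlinarith
    calc ((Exc x r M).card : ℝ) ≤ 6 * r * (5 * T) ^ (r + 1) * (x : ℝ) ^ (1 - 1 / (r : ℝ)) := h1
      _ ≤ Real.exp (2 * r * t) * Real.exp (4 * r * t) * (x * Real.exp (-(L / r))) := by
          rw [h4]
          apply mul_le_mul_of_nonneg_right _ (by positivity)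
          exact mul_le_mul h2 h3 (by positivity) (Real.exp_pos _).le
      _ = x * Real.exp (6 * r * t - L / r) := by
          rw [← Real.exp_add, mul_left_comm, ← Real.exp_add]
          congr 2
          ring
      _ ≤ x * Real.exp (-(3 / 20 * ℓ)) := by
          apply mul_le_mul_of_nonneg_left _ hx0.le
          apply Real.exp_le_exp.2
          linarith
  have hE : (M.card : ℝ) * ∑ r ∈ Icc 2 R, ((Exc x r M).card : ℝ) ≤
      15 * ((Nat.primeCounting x : ℝ) * (L / ℓ)) := by
    have h1 : ∑ r ∈ Icc 2 R, ((Exc x r M).card : ℝ) ≤ R * (x * Real.exp (-(3 / 20 * ℓ))) := by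
      refine (sum_le_sum hterm).trans ?_
      rw [sum_const, nsmul_eq_mul, Nat.card_Icc]
      apply mul_le_mul_of_nonneg_right _ (by positivity)
      exact_mod_cast (by omega : R + 1 - 2 ≤ R)
    have h2 : T * L * Real.exp (-(3 / 20 * ℓ)) ≤ 1 := by
      calc T * L * Real.exp (-(3 / 20 * ℓ)) ≤
          Real.exp (ℓ / 100) * Real.exp (ℓ / 100) * Real.exp (-(3 / 20 * ℓ)) := by
            apply mul_le_mul_of_nonneg_right _ (Real.exp_pos _).le
            exact mul_le_mul hTℓ hLℓ hL0.le (Real.exp_pos _).le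
        _ = Real.exp (-(13 / 100 * ℓ)) := by
            rw [← Real.exp_add, ← Real.exp_add]
            congr 1
            ring
        _ ≤ 1 := Real.exp_le_one_iff.2 (by linarith)
    calc (M.card : ℝ) * ∑ r ∈ Icc 2 R, ((Exc x r M).card : ℝ)
        ≤ T * (R * (x * Real.exp (-(3 / 20 * ℓ)))) := by
          apply mul_le_mul hMT h1 (sum_nonneg fun _ _ => Nat.cast_nonneg _) hT0.le
      _ ≤ T * (3 * (L / ℓ) * (x * Real.exp (-(3 / 20 * ℓ)))) := by
          apply mul_le_mul_of_nonneg_left _ hT0.le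
          exact mul_le_mul_of_nonneg_right hR2 (by positivity)
      _ = 3 * (x / L * (L / ℓ)) * (T * L * Real.exp (-(3 / 20 * ℓ))) := by
          field_simp
      _ ≤ 3 * (x / L * (L / ℓ)) * 1 := mul_le_mul_of_nonneg_left h2 (by positivity)
      _ ≤ 15 * ((Nat.primeCounting x : ℝ) * (L / ℓ)) := by
          have h3 : x / L * (L / ℓ) ≤ 5 * Nat.primeCounting x * (L / ℓ) :=
            mul_le_mul_of_nonneg_right hπ (by linarith)
          linarith
  have hD : (M.card : ℝ) * (DM x M).card ≤ (Nat.primeCounting x : ℝ) * (L / ℓ) := by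
    set E : ℕ := ⌈3 / 2 * T⌉₊ with hE'
    have hE1 : 3 / 2 * T ≤ E := Nat.le_ceil _
    have hE2 : (E : ℝ) ≤ 2 * T := by
      have := Nat.ceil_lt_add_one (a := 3 / 2 * T) (by linarith)
      rw [← hE'] at this
      linarith
    have h1 : (DM x M).card ≤ M.card * E := by
      apply DM_card x M E
      intro n hn
      refine ⟨h0 n hn, ?_⟩
      have h2 := hMH n hn
      have h3 : ((n.natAbs : ℕ) : ℝ) ≤ (2 : ℝ) ^ E := by
        rw [Nat.cast_natAbs]
        push_cast
        refine h2.trans ?_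
        have h4 : (2 : ℝ) ^ E = Real.exp (E * Real.log 2) := by
          rw [Real.exp_nat_mul, Real.exp_log (by norm_num)]
        rw [h4]
        apply Real.exp_le_exp.2
        have h5 := Real.log_two_gt_d9
        have h6 : 3 / 2 * T * (2 / 3) ≤ E * Real.log 2 := by
          apply mul_le_mul hE1 (by linarith) (by norm_num) (by linarith)
        linarith
      exact_mod_cast h3
    have h2 : ((DM x M).card : ℝ) ≤ T * (2 * T) := by
      calc ((DM x M).card : ℝ) ≤ (M.card : ℝ) * E := by exact_mod_cast h1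
        _ ≤ T * (2 * T) := mul_le_mul hMT hE2 (Nat.cast_nonneg _) hT0.le
    have h3 : (M.card : ℝ) * (DM x M).card ≤ T * (T * (2 * T)) :=
      mul_le_mul hMT h2 (Nat.cast_nonneg _) hT0.le
    have h4 : T * (T * (2 * T)) * (5 * L) ≤ x := by
      have h5 : T * (T * (2 * T)) * (5 * L) = 10 * (T * T * T * L) := by ring
      have h6 : T * T * T * L ≤ Real.exp (ℓ / 25) := by
        calc T * T * T * L ≤ Real.exp (ℓ / 100) * Real.exp (ℓ / 100) * Real.exp (ℓ / 100) *
              Real.exp (ℓ / 100) := by gcongr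
          _ = Real.exp (ℓ / 25) := by
              rw [← Real.exp_add, ← Real.exp_add, ← Real.exp_add]
              congr 1
              ring
      have h7 : (10 : ℝ) ≤ Real.exp (ℓ / 2) := by
        have h8 := Real.add_one_le_exp (ℓ / 2)
        linarith
      calc T * (T * (2 * T)) * (5 * L) = 10 * (T * T * T * L) := h5
        _ ≤ Real.exp (ℓ / 2) * Real.exp (ℓ / 25) := mul_le_mul h7 h6 (by positivity) (Real.exp_pos _).le
        _ = Real.exp (ℓ / 2 + ℓ / 25) := (Real.exp_add _ _).symm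
        _ ≤ Real.exp L := Real.exp_le_exp.2 (by linarith)
        _ = x := hxL.symm
    have h5 : T * (T * (2 * T)) ≤ Nat.primeCounting x := by
      have h6 : T * (T * (2 * T)) * (5 * L) ≤ Nat.primeCounting x * (5 * L) := by linarith
      exact le_of_mul_le_mul_right h6 (by linarith)
    calc (M.card : ℝ) * (DM x M).card ≤ Nat.primeCounting x := h3.trans h5
      _ = Nat.primeCounting x * 1 := (mul_one _).symm
      _ ≤ _ := mul_le_mul_of_nonneg_left hratio (Nat.cast_nonneg _)
  rw [mul_add] at hsum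
  linarith

end Pool.Agent.J4H36
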