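import Pool.Agent.J4H36.A1
import Pool.Agent.Helper112.Lp.MertensLog

/-!
The smooth part of `p - 1` on average.
-/

set_option autoImplicit false

open Finset

namespace Pool.Agent.J4H36

/-- the logarithm of the part of `m` composed of primes `≤ z` -/
noncomputable def Sm (z m : ℕ) : ℝ :=
  ∑ l ∈ m.primeFactors.filter (fun l => l ≤ z), (m.factorization l : ℝ) * Real.log l

theorem Sm_le (z m J : ℕ) (hm : 1 ≤ m) (hmJ : m < 2 ^ (J + 1)) :
    Sm z m ≤ ∑ l ∈ (Icc 1 z).filter Nat.Prime, ∑ a ∈ Icc 1 J,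
      (if l ^ a ∣ m then Real.log l else 0) := by
  unfold Sm
  have hsub : m.primeFactors.filter (fun l => l ≤ z) ⊆ (Icc 1 z).filter Nat.Prime := by
    intro l hl
    rw [mem_filter] at hl
    have hp := Nat.prime_of_mem_primeFactors hl.1
    rw [mem_filter, mem_Icc]
    exact ⟨⟨hp.one_le, hl.2⟩, hp⟩
  refine le_trans (sum_le_sum fun l hl => ?_) (sum_le_sum_of_subset_of_nonneg hsub fun l _ _ =>
    sum_nonneg fun a _ => ?_)
  · rw [mem_filter] at hl
    have hp := Nat.prime_of_mem_primeFactors hl.1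
    have hlog : 0 ≤ Real.log l := Real.log_natCast_nonneg l
    rw [← sum_filter, sum_const, nsmul_eq_mul]
    apply mul_le_mul_of_nonneg_right _ hlog
    have h1 : m.factorization l ≤ J := by
      have h2 : l ^ m.factorization l ≤ m := Nat.le_of_dvd (by omega) (Nat.ordProj_dvd m l)
      have h3 : 2 ^ m.factorization l ≤ l ^ m.factorization l := Nat.pow_le_pow_left hp.two_le _
      have h4 : 2 ^ m.factorization l < 2 ^ (J + 1) := by omega
      have h5 := (Nat.pow_lt_pow_iff_right (by norm_num : 1 < 2)).1 h4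
      omega
    have h2 : Icc 1 (m.factorization l) ⊆ (Icc 1 J).filter (fun a => l ^ a ∣ m) := by
      intro a ha
      rw [mem_Icc] at ha
      rw [mem_filter, mem_Icc]
      refine ⟨⟨ha.1, by omega⟩, (pow_dvd_pow l ha.2).trans (Nat.ordProj_dvd m l)⟩
    have h3 := card_le_card h2
    rw [Nat.card_Icc] at h3
    exact_mod_cast (by omega : m.factorization l ≤ ((Icc 1 J).filter (fun a => l ^ a ∣ m)).card)
  · split_ifs
    · exact Real.log_natCast_nonneg l
    · exact le_rfl

theorem P1_triv (x q : ℕ) (hq : 0 < q) (hqx : x < q ^ 2) : ((P1 x q).card : ℝ) ≤ Real.sqrt x := by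
  have h1 : (P1 x q).card ≤ x / q := by
    have h2 : (P1 x q).card ≤ (Icc 1 (x / q)).card := by
      apply card_le_card_of_injOn (fun p => (p - 1) / q)
      · intro p hp
        have hp' : p ∈ P1 x q := hp
        unfold P1 at hp'
        rw [mem_filter, mem_Icc] at hp'
        obtain ⟨⟨h1, h2⟩, h3, h4⟩ := hp'
        have h5 := h3.two_le
        change (p - 1) / q ∈ Icc 1 (x / q)
        rw [mem_Icc]
        refine ⟨?_, Nat.div_le_div_right (by omega)⟩
        rw [Nat.one_le_div_iff hq]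
        exact Nat.le_of_dvd (by omega) h4
      · intro p hp p' hp' h
        have hp1 : p ∈ P1 x q := hp
        have hp2 : p' ∈ P1 x q := hp'
        unfold P1 at hp1 hp2
        rw [mem_filter, mem_Icc] at hp1 hp2
        have h : (p - 1) / q = (p' - 1) / q := h
        have e1 := Nat.div_mul_cancel hp1.2.2
        have e2 := Nat.div_mul_cancel hp2.2.2
        rw [h] at e1
        have : p - 1 = p' - 1 := e1.symm.trans e2
        omega
    rw [Nat.card_Icc, Nat.add_sub_cancel] at h2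
    exact h2
  have hq' : (0 : ℝ) < q := by exact_mod_cast hq
  have h2 : ((x / q : ℕ) : ℝ) ≤ x / q := Nat.cast_div_le
  have h3 : (x : ℝ) / q ≤ Real.sqrt x := by
    rw [div_le_iff₀ hq']
    have h4 : Real.sqrt x ≤ q := by
      apply Real.sqrt_le_left (by positivity) |>.2
      exact_mod_cast hqx.le
    calc (x : ℝ) = Real.sqrt x * Real.sqrt x := (Real.mul_self_sqrt (Nat.cast_nonneg _)).symm
      _ ≤ Real.sqrt x * q := mul_le_mul_of_nonneg_left h4 (Real.sqrt_nonneg _)
  calc ((P1 x q).card : ℝ) ≤ ((x / q : ℕ) : ℝ) := by exact_mod_cast h1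
    _ ≤ _ := h2.trans h3

theorem geo (r : ℝ) (h0 : 0 ≤ r) (h1 : r ≤ 1 / 2) (J : ℕ) :
    ∑ a ∈ Icc 1 J, r ^ a + 2 * r ^ (J + 1) ≤ 2 * r := by
  induction J with
  | zero => simp
  | succ J ih =>
    rw [Finset.sum_Icc_succ_top (by omega)]
    have h2 : 0 ≤ r ^ (J + 1) := pow_nonneg h0 _
    have h3 : r ^ (J + 1 + 1) = r ^ (J + 1) * r := pow_succ _ _
    rw [h3]
    nlinarith

theorem smooth_sum : ∃ C : ℝ, 0 < C ∧ ∀ x z : ℕ, 3 ≤ x → 2 ≤ z → z ^ 4 ≤ x →
    ∑ p ∈ P1 x 1, Sm z (p - 1) ≤ C * ((Nat.primeCounting x : ℝ) * Real.log z) := by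
  classical
  obtain ⟨C₁, hC₁, hM⟩ := Pool.Agent.Helper112.LP.mertens_log
  refine ⟨5 * (352 * (1 + 2 * C₁) + 64 * 2), by positivity, ?_⟩
  intro x z hx hz hzx
  have hx3 : (3 : ℝ) ≤ x := by exact_mod_cast hx
  have hx0 : (0 : ℝ) < x := by linarith
  set L := Real.log x with hL
  have hL1 : 1 ≤ L := by
    rw [hL, Real.le_log_iff_exp_le hx0]
    have := Real.exp_one_lt_d9
    linarith
  have hL0 : 0 < L := by linarith
  have hz2 : (2 : ℝ) ≤ z := by exact_mod_cast hz
  have hlz2 : Real.log 2 ≤ Real.log z := Real.log_le_log (by norm_num) hz2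
  have h2l := Real.log_two_gt_d9
  have hlz : 0 < Real.log z := by linarith
  set J := Nat.log 2 x with hJ
  have hxJ : x < 2 ^ (J + 1) := Nat.lt_pow_succ_log_self (by norm_num) x
  have hJL : (J : ℝ) ≤ 2 * L := by
    have h1 : (2 : ℝ) ^ J ≤ x := by exact_mod_cast Nat.pow_log_le_self 2 (by omega)
    have h3 := Real.log_le_log (by positivity) h1
    rw [Real.log_pow, ← hL] at h3
    nlinarith [(Nat.cast_nonneg J : (0 : ℝ) ≤ (J : ℝ))]
  have hsqx : 0 ≤ Real.sqrt x := Real.sqrt_nonneg _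
  have hcard : ∀ l a : ℕ, l.Prime → 1 ≤ a → ((P1 x (l ^ a)).card : ℝ) ≤
      176 * (x / L) * (1 / (l : ℝ)) ^ a + Real.sqrt x := by
    intro l a hl ha
    have hl0 : (0 : ℝ) < l := by exact_mod_cast hl.pos
    by_cases h : (l ^ a) ^ 2 ≤ x
    · have h1 := P1_pp x l a (by omega) hl ha h
      rw [← hL] at h1
      have h2 : 176 * ((x : ℝ) / ((l ^ a : ℕ) * L)) = 176 * (x / L) * (1 / (l : ℝ)) ^ a := by
        push_cast
        rw [one_div, inv_pow]
        field_simp
      rw [h2] at h1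
      linarith
    · have h1 := P1_triv x (l ^ a) (pow_pos hl.pos a) (not_le.1 h)
      have h2 : 0 ≤ 176 * ((x : ℝ) / L) * (1 / (l : ℝ)) ^ a := by positivity
      linarith
  have hfilt : ∀ q : ℕ, (P1 x 1).filter (fun p => q ∣ p - 1) = P1 x q := by
    intro q
    ext p
    unfold P1
    rw [mem_filter, mem_filter, mem_filter]
    constructor
    · rintro ⟨⟨h1, h2, -⟩, h3⟩
      exact ⟨h1, h2, h3⟩
    · rintro ⟨h1, h2, h3⟩
      exact ⟨⟨h1, h2, one_dvd _⟩, h3⟩
  have hstep : ∑ p ∈ P1 x 1, Sm z (p - 1) ≤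
      ∑ l ∈ (Icc 1 z).filter Nat.Prime, ∑ a ∈ Icc 1 J, Real.log l * ((P1 x (l ^ a)).card : ℝ) := by
    have h1 : ∑ p ∈ P1 x 1, Sm z (p - 1) ≤ ∑ p ∈ P1 x 1, ∑ l ∈ (Icc 1 z).filter Nat.Prime,
        ∑ a ∈ Icc 1 J, (if l ^ a ∣ p - 1 then Real.log l else 0) := by
      apply sum_le_sum
      intro p hp
      unfold P1 at hp
      rw [mem_filter, mem_Icc] at hp
      have := hp.2.1.two_le
      exact Sm_le z (p - 1) J (by omega) (by omega)
    refine h1.trans (le_of_eq ?_)
    rw [sum_comm]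
    apply sum_congr rfl
    intro l _
    rw [sum_comm]
    apply sum_congr rfl
    intro a _
    rw [← sum_filter, hfilt, sum_const, nsmul_eq_mul, mul_comm]
  refine hstep.trans ?_
  have hinner : ∀ l ∈ (Icc 1 z).filter Nat.Prime,
      ∑ a ∈ Icc 1 J, Real.log l * ((P1 x (l ^ a)).card : ℝ) ≤
      352 * (x / L) * (Real.log l / l) + Real.log z * (2 * L * Real.sqrt x) := by
    intro l hl
    rw [mem_filter, mem_Icc] at hl
    have hl2 : (2 : ℝ) ≤ l := by exact_mod_cast hl.2.two_le
    have hl0 : (0 : ℝ) < l := by linarith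
    have hll : 0 ≤ Real.log l := Real.log_natCast_nonneg l
    have hllz : Real.log l ≤ Real.log z := Real.log_le_log hl0 (by exact_mod_cast hl.1.2)
    have hg := geo (1 / (l : ℝ)) (by positivity)
      (one_div_le_one_div_of_le (by norm_num) hl2) J
    have hg2 : 0 ≤ (1 / (l : ℝ)) ^ (J + 1) := by positivity
    calc ∑ a ∈ Icc 1 J, Real.log l * ((P1 x (l ^ a)).card : ℝ)
        ≤ ∑ a ∈ Icc 1 J, Real.log l * (176 * (x / L) * (1 / (l : ℝ)) ^ a + Real.sqrt x) := by
          apply sum_le_sum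
          intro a ha
          rw [mem_Icc] at ha
          exact mul_le_mul_of_nonneg_left (hcard l a hl.2 ha.1) hll
      _ = Real.log l * (176 * (x / L)) * ∑ a ∈ Icc 1 J, (1 / (l : ℝ)) ^ a +
            Real.log l * (J * Real.sqrt x) := by
          rw [← mul_sum, sum_add_distrib, ← mul_sum, sum_const, Nat.card_Icc, nsmul_eq_mul]
          have : ((J + 1 - 1 : ℕ) : ℝ) = J := by simp
          rw [this]
          ring
      _ ≤ Real.log l * (176 * (x / L)) * (2 * (1 / (l : ℝ))) +
            Real.log z * (2 * L * Real.sqrt x) := by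
          apply add_le_add
          · apply mul_le_mul_of_nonneg_left _ (by positivity)
            linarith
          · apply mul_le_mul hllz _ (by positivity) hlz.le
            exact mul_le_mul_of_nonneg_right hJL hsqx
      _ = _ := by ring
  refine (sum_le_sum hinner).trans ?_
  rw [sum_add_distrib, ← mul_sum, sum_const, nsmul_eq_mul]
  have hMz := hM z (by omega)
  have h1 : ∑ q ∈ (Icc 1 z).filter Nat.Prime, Real.log q / q ≤ (1 + 2 * C₁) * Real.log z := by
    have h2 := (abs_le.1 hMz).2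
    nlinarith
  have h2 : (((Icc 1 z).filter Nat.Prime).card : ℝ) ≤ z := by
    have h3 := card_filter_le (Icc 1 z) Nat.Prime
    rw [Nat.card_Icc] at h3
    exact_mod_cast (by omega : ((Icc 1 z).filter Nat.Prime).card ≤ z)
  have hpi := pi_lower x hx
  rw [← hL] at hpi
  have hπ : (x : ℝ) / L ≤ 5 * Nat.primeCounting x := by
    rw [div_le_iff₀ hL0]
    linarith
  have h3 : (z : ℝ) * (2 * L * Real.sqrt x) ≤ 64 * 2 * (x / L) := by
    rw [mul_div_assoc', le_div_iff₀ hL0]
    set u : ℝ := (x : ℝ) ^ (1 / 8 : ℝ) with hu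
    have hu0 : 0 < u := Real.rpow_pos_of_pos hx0 _
    have hu8 : u ^ 8 = x := by
      rw [hu, ← Real.rpow_natCast, ← Real.rpow_mul hx0.le]
      norm_num
    have hLu : L ≤ 8 * u := by
      have h4 : L = 8 * Real.log u := by
        rw [hL, ← hu8, Real.log_pow]
        norm_num
      have h5 := Real.log_le_sub_one_of_pos hu0
      linarith
    have hzu : (z : ℝ) ≤ u ^ 2 := by
      have h4 : (z : ℝ) ^ 4 ≤ (u ^ 2) ^ 4 := by
        rw [← pow_mul]
        norm_num
        rw [hu8]
        exact_mod_cast hzx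
      exact le_of_pow_le_pow_left₀ (by norm_num) (by positivity) h4
    have hsq : Real.sqrt x = u ^ 4 := by
      rw [← hu8]
      have : u ^ 8 = (u ^ 4) ^ 2 := by ring
      rw [this, Real.sqrt_sq (by positivity)]
    rw [hsq, ← hu8]
    calc (z : ℝ) * (2 * L * u ^ 4) * L = 2 * z * (L * L) * u ^ 4 := by ring
      _ ≤ 2 * u ^ 2 * ((8 * u) * (8 * u)) * u ^ 4 := by gcongr
      _ = 64 * 2 * u ^ 8 := by ring
  have hxL : 0 < (x : ℝ) / L := by positivity
  calc 352 * ((x : ℝ) / L) * ∑ q ∈ (Icc 1 z).filter Nat.Prime, Real.log q / q +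
        ((Icc 1 z).filter Nat.Prime).card * (Real.log z * (2 * L * Real.sqrt x))
      ≤ 352 * ((x : ℝ) / L) * ((1 + 2 * C₁) * Real.log z) + z * (Real.log z * (2 * L * Real.sqrt x)) := by
        apply add_le_add
        · exact mul_le_mul_of_nonneg_left h1 (by positivity)
        · exact mul_le_mul_of_nonneg_right h2 (by positivity)
    _ = 352 * (1 + 2 * C₁) * (x / L) * Real.log z + (z * (2 * L * Real.sqrt x)) * Real.log z := by ring
    _ ≤ 352 * (1 + 2 * C₁) * (x / L) * Real.log z + (64 * 2 * (x / L)) * Real.log z := by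
        apply add_le_add le_rfl
        exact mul_le_mul_of_nonneg_right h3 hlz.le
    _ = (352 * (1 + 2 * C₁) + 64 * 2) * Real.log z * (x / L) := by ring
    _ ≤ (352 * (1 + 2 * C₁) + 64 * 2) * Real.log z * (5 * Nat.primeCounting x) :=
        mul_le_mul_of_nonneg_left hπ (by positivity)
    _ = _ := by ring

end Pool.Agent.J4H36
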