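import Pool.Agent.J4H36.A4
import Pool.Agent.J4H36.A5

/-!
The index of an integer modulo primes, for all but few elements of an independent set.
-/

set_option autoImplicit false

open Finset

namespace Pool.Agent.J4H36

open Pool.Agent.Y855 (LF Exc MI)

/-- prime divisors of the index -/
theorem dvd_index_iff (n : ℤ) (p l : ℕ) (hp : p.Prime) (hpn : ¬ (p : ℤ) ∣ n) (hl : l.Prime) :
    l ∣ (p - 1) / orderOf (n : ZMod p) ↔ l ∣ p - 1 ∧ (n : ZMod p) ^ ((p - 1) / l) = 1 := by
  have : Fact p.Prime := ⟨hp⟩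
  have hn0 : (n : ZMod p) ≠ 0 := by
    intro h
    exact hpn ((ZMod.intCast_zmod_eq_zero_iff_dvd _ _).1 h)
  have hp1 : 0 < p - 1 := by have := hp.two_le; omega
  have hord : orderOf (n : ZMod p) ∣ p - 1 := ZMod.orderOf_dvd_card_sub_one hn0
  have hord0 : 0 < orderOf (n : ZMod p) := Nat.pos_of_dvd_of_pos hord hp1
  obtain ⟨i, hi⟩ := hord
  have hi' : (p - 1) / orderOf (n : ZMod p) = i := by
    rw [hi, Nat.mul_div_cancel_left _ hord0]
  rw [hi', ← orderOf_dvd_iff_pow_eq_one]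
  constructor
  · rintro ⟨j, rfl⟩
    refine ⟨⟨orderOf (n : ZMod p) * j, by rw [hi]; ring⟩, ?_⟩
    have : p - 1 = l * (orderOf (n : ZMod p) * j) := by rw [hi]; ring
    rw [this, Nat.mul_div_cancel_left _ hl.pos]
    exact dvd_mul_right _ _
  · rintro ⟨⟨m, hm⟩, h⟩
    rw [hm, Nat.mul_div_cancel_left _ hl.pos] at h
    obtain ⟨j, hj⟩ := h
    refine ⟨j, ?_⟩
    have h1 : orderOf (n : ZMod p) * i = orderOf (n : ZMod p) * (l * j) := by
      rw [← hi, hm, hj]
      ring
    exact Nat.eq_of_mul_eq_mul_left hord0 h1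

theorem index_pos (n : ℤ) (p : ℕ) (hp : p.Prime) (hpn : ¬ (p : ℤ) ∣ n) :
    0 < (p - 1) / orderOf (n : ZMod p) ∧ (p - 1) / orderOf (n : ZMod p) ∣ p - 1 := by
  have : Fact p.Prime := ⟨hp⟩
  have hn0 : (n : ZMod p) ≠ 0 := by
    intro h
    exact hpn ((ZMod.intCast_zmod_eq_zero_iff_dvd _ _).1 h)
  have hp1 : 0 < p - 1 := by have := hp.two_le; omega
  have hord : orderOf (n : ZMod p) ∣ p - 1 := ZMod.orderOf_dvd_card_sub_one hn0
  exact ⟨Nat.div_pos (Nat.le_of_dvd hp1 hord) (Nat.pos_of_dvd_of_pos hord hp1),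
    Nat.div_dvd_of_dvd hord⟩

/-- the index is at most the smooth part of `p - 1` unless it has a large prime factor -/
theorem index_le (n : ℤ) (x z p : ℕ) (hp : p ∈ P1 x 1) (hpn : ¬ (p : ℤ) ∣ n)
    (hbad : p ∉ BadA n x z) : Real.log ((p - 1) / orderOf (n : ZMod p) : ℕ) ≤ Sm z (p - 1) := by
  obtain ⟨hpp, hpx⟩ := mem_P1_one.1 hp
  obtain ⟨hi0, hi⟩ := index_pos n p hpp hpn
  set i := (p - 1) / orderOf (n : ZMod p) with hidef
  have hp1 : p - 1 ≠ 0 := by have := hpp.two_le; omega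
  have hsm : ∀ l ∈ i.primeFactors, l ≤ z := by
    intro l hl
    have hlp := Nat.prime_of_mem_primeFactors hl
    by_contra hcon
    apply hbad
    classical
    unfold BadA
    refine mem_filter.2 ?_
    have h := (dvd_index_iff n p l hpp hpn hlp).1 (Nat.dvd_of_mem_primeFactors hl)
    exact ⟨hp, hpn, l, hlp, not_le.1 hcon, h.1, h.2⟩
  rw [Real.log_nat_eq_sum_factorization, Finsupp.sum, Nat.support_factorization]
  unfold Sm
  have hsub : i.primeFactors ⊆ (p - 1).primeFactors.filter (fun l => l ≤ z) := by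
    intro l hl
    rw [mem_filter]
    exact ⟨Nat.primeFactors_mono hi hp1 hl, hsm l hl⟩
  refine le_trans (sum_le_sum fun l hl => ?_) (sum_le_sum_of_subset_of_nonneg hsub fun l _ _ =>
    mul_nonneg (Nat.cast_nonneg _) (Real.log_natCast_nonneg l))
  apply mul_le_mul_of_nonneg_right _ (Real.log_natCast_nonneg l)
  exact_mod_cast (Nat.factorization_le_iff_dvd hi0.ne' hp1).2 hi l

open Classical in
/-- the primes `p ≤ x` for which the index of `n` exceeds `w` -/
noncomputable def BigI (n : ℤ) (x : ℕ) (w : ℝ) : Finset ℕ :=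
  (P1 x 1).filter (fun p => ¬ (p : ℤ) ∣ n ∧ w < ((p - 1) / orderOf (n : ZMod p) : ℕ))

open Classical in
theorem thmA : ∃ C : ℝ, 1 ≤ C ∧ ∀ (x : ℕ) (T : ℝ) (M : Finset ℤ), 3 ≤ x → Real.log x ≤ T → 3 ≤ T →
    (∀ n ∈ M, n ≠ 0) → MI M → (M.card : ℝ) ≤ T → (∀ n ∈ M, |(n : ℝ)| ≤ Real.exp T) →
    ∀ ε w : ℝ, 0 < ε → ε ≤ 1 → 1 ≤ w → C * (Real.log x * Real.log T) ≤ (ε * Real.log w) ^ 2 →
    ((M.filter (fun n => ε * Nat.primeCounting x < ((BigI n x w).card : ℝ))).card : ℝ) ≤
      C * (Real.log x / (ε ^ 2 * Real.log w)) := by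
  obtain ⟨C₄, hC₄, h4⟩ := bad_totalA
  obtain ⟨C₅', hC₅', h5'⟩ := smooth_sum
  set C₅ := max C₅' 1 with hC₅
  have hC₅1 : 1 ≤ C₅ := le_max_right _ _
  have h5 : ∀ x z : ℕ, 3 ≤ x → 2 ≤ z → z ^ 4 ≤ x →
      ∑ p ∈ P1 x 1, Sm z (p - 1) ≤ C₅ * ((Nat.primeCounting x : ℝ) * Real.log z) := by
    intro x z hx hz hzx
    refine (h5' x z hx hz hzx).trans ?_
    apply mul_le_mul_of_nonneg_right (le_max_left _ _)
    exact mul_nonneg (Nat.cast_nonneg _) (Real.log_natCast_nonneg z)
  refine ⟨6400 * C₅ ^ 2 + 16 * C₄ * C₅, by nlinarith, ?_⟩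
  intro x T M hx hLT hT3 h0 hM hMT hMH ε w hε hε1 hw hcond
  set L := Real.log x with hL
  set t := Real.log T with ht
  have hx3 : (3 : ℝ) ≤ x := by exact_mod_cast hx
  have hx0 : (0 : ℝ) < x := by linarith
  have hT0 : 0 < T := by linarith
  have ht1 : 1 ≤ t := by
    rw [ht, Real.le_log_iff_exp_le hT0]
    have := Real.exp_one_lt_d9
    linarith
  have hL1 : 1 ≤ L := by
    rw [hL, Real.le_log_iff_exp_le hx0]
    have := Real.exp_one_lt_d9
    linarith
  have hL0 : 0 < L := by linarith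
  have hlw0 : 0 ≤ Real.log w := Real.log_nonneg hw
  have hCpos : 0 ≤ 6400 * C₅ ^ 2 + 16 * C₄ * C₅ := by positivity
  by_cases hwx : (x : ℝ) ≤ w
  · -- nothing to do
    have hempty : M.filter (fun n => ε * Nat.primeCounting x < ((BigI n x w).card : ℝ)) = ∅ := by
      apply filter_false_of_mem
      intro n _ h
      have h1 : BigI n x w = ∅ := by
        unfold BigI
        apply filter_false_of_mem
        rintro p hp ⟨hpn, h2⟩
        obtain ⟨hpp, hpx⟩ := mem_P1_one.1 hp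
        obtain ⟨hi0, hi⟩ := index_pos n p hpp hpn
        have h3 := Nat.le_of_dvd (by have := hpp.two_le; omega) hi
        have h4 : (p - 1) / orderOf (n : ZMod p) ≤ x := by omega
        have h5 : (((p - 1) / orderOf (n : ZMod p) : ℕ) : ℝ) ≤ x := by exact_mod_cast h4
        linarith
      rw [h1, card_empty, Nat.cast_zero] at h
      have : (0 : ℝ) ≤ ε * Nat.primeCounting x := by positivity
      linarith
    rw [hempty, card_empty, Nat.cast_zero]
    positivity
  have hwx' : w < x := not_le.1 hwx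
  have hlwL : Real.log w ≤ L := Real.log_le_log (by linarith) hwx'.le
  set lam := ε * Real.log w / (4 * C₅) with hlam
  have hlam0 : 0 ≤ lam := by positivity
  have hcond2 : 400 * (L * t) ≤ lam ^ 2 := by
    have h1 : 6400 * C₅ ^ 2 * (L * t) ≤ (ε * Real.log w) ^ 2 := by
      refine le_trans ?_ hcond
      apply mul_le_mul_of_nonneg_right _ (by positivity)
      have : 0 ≤ 16 * C₄ * C₅ := by positivity
      linarith
    rw [hlam, div_pow, le_div_iff₀ (by positivity)]
    calc 400 * (L * t) * (4 * C₅) ^ 2 = 6400 * C₅ ^ 2 * (L * t) := by ring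
      _ ≤ _ := h1
  have hlam20 : 20 ≤ lam := by
    have h1 : 1 ≤ L * t := by nlinarith
    nlinarith
  set z : ℕ := ⌊Real.exp lam⌋₊ with hz
  have hexp : 21 ≤ Real.exp lam := by
    have := Real.add_one_le_exp lam
    linarith
  have hz1 : (z : ℝ) ≤ Real.exp lam := Nat.floor_le (Real.exp_pos _).le
  have hz2 : Real.exp lam < z + 1 := Nat.lt_floor_add_one _
  have hz20 : (20 : ℝ) < z := by linarith
  have hzn2 : 2 ≤ z := by
    have : (2 : ℝ) ≤ z := by linarith
    exact_mod_cast this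
  set ℓ := Real.log z with hℓ
  have hℓ1 : ℓ ≤ lam := by
    rw [hℓ, Real.log_le_iff_le_exp (by linarith)]
    exact hz1
  have hℓ2 : lam / 2 ≤ ℓ := by
    rw [hℓ, Real.le_log_iff_exp_le (by linarith)]
    have h1 : Real.exp lam = Real.exp (lam / 2) * Real.exp (lam / 2) := by
      rw [← Real.exp_add]
      congr 1
      ring
    have h2 : 2 ≤ Real.exp (lam / 2) := by
      have := Real.add_one_le_exp (lam / 2)
      linarith
    have h3 : 2 * Real.exp (lam / 2) ≤ Real.exp lam := by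
      rw [h1]
      exact mul_le_mul_of_nonneg_right h2 (Real.exp_pos _).le
    linarith
  have hℓ0 : 0 < ℓ := by linarith
  have hcond3 : 100 * (L * t) ≤ ℓ ^ 2 := by
    have h1 : (lam / 2) ^ 2 ≤ ℓ ^ 2 := pow_le_pow_left₀ (by linarith) hℓ2 2
    nlinarith
  have hlam4 : 4 * lam ≤ L := by
    have h1 : 4 * lam = ε * Real.log w / C₅ := by
      rw [hlam]
      field_simp
    rw [h1, div_le_iff₀ (by linarith)]
    have h2 : ε * Real.log w ≤ 1 * Real.log w := mul_le_mul_of_nonneg_right hε1 hlw0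
    nlinarith
  have hz4 : z ^ 4 ≤ x := by
    have h1 : (z : ℝ) ^ 4 ≤ x := by
      calc (z : ℝ) ^ 4 ≤ (Real.exp lam) ^ 4 := pow_le_pow_left₀ (by positivity) hz1 4
        _ = Real.exp (4 * lam) := by
            rw [← Real.exp_nat_mul]
            norm_num
        _ ≤ Real.exp L := Real.exp_le_exp.2 hlam4
        _ = x := Real.exp_log hx0
    exact_mod_cast h1
  have hzx : z ≤ x := by
    refine le_trans ?_ hz4
    calc z = z ^ 1 := (pow_one z).symm
      _ ≤ z ^ 4 := Nat.pow_le_pow_right (by omega) (by norm_num)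
  have hA := h4 x z T M hx hzn2 hzx hLT hT3 hcond3 h0 hM hMT hMH
  rw [← hL, ← hℓ] at hA
  have hS := h5 x z hx hzn2 hz4
  rw [← hℓ] at hS
  set P : ℝ := (Nat.primeCounting x : ℝ) with hP
  have hP0 : 0 < P := by
    have := pi_lower x hx
    rw [← hL, ← hP] at this
    by_contra hcon
    have h1 : P ≤ 0 := not_lt.1 hcon
    have h2 : P * L ≤ 0 := mul_nonpos_of_nonpos_of_nonneg h1 hL0.le
    linarith
  have hlwpos : 0 < Real.log w := by
    by_contra hcon
    have h1 : Real.log w = 0 := le_antisymm (not_lt.1 hcon) hlw0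
    rw [hlam, h1] at hlam20
    simp at hlam20
    linarith
  -- Markov for the smooth part
  set SS := (P1 x 1).filter (fun p => Real.log w < Sm z (p - 1)) with hSS
  have hSm0 : ∀ m, 0 ≤ Sm z m := fun m =>
    sum_nonneg fun l _ => mul_nonneg (Nat.cast_nonneg _) (Real.log_natCast_nonneg l)
  have hSScard : (SS.card : ℝ) ≤ ε / 4 * P := by
    have h1 : (SS.card : ℝ) * Real.log w ≤ ∑ p ∈ P1 x 1, Sm z (p - 1) := by
      calc (SS.card : ℝ) * Real.log w = ∑ _p ∈ SS, Real.log w := by rw [sum_const, nsmul_eq_mul]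
        _ ≤ ∑ p ∈ SS, Sm z (p - 1) := sum_le_sum fun p hp => (mem_filter.1 hp).2.le
        _ ≤ _ := sum_le_sum_of_subset_of_nonneg (filter_subset _ _) fun p _ _ => hSm0 _
    have h2 : (SS.card : ℝ) * Real.log w ≤ ε / 4 * P * Real.log w := by
      calc (SS.card : ℝ) * Real.log w ≤ C₅ * (P * ℓ) := h1.trans hS
        _ ≤ C₅ * (P * lam) := by
            apply mul_le_mul_of_nonneg_left _ (by linarith)
            exact mul_le_mul_of_nonneg_left hℓ1 hP0.le
        _ = ε / 4 * P * Real.log w := by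
            rw [hlam]
            field_simp
    exact le_of_mul_le_mul_right h2 hlwpos
  have hsub : ∀ n : ℤ, BigI n x w ⊆ BadA n x z ∪ SS := by
    intro n p hp
    unfold BigI at hp
    rw [mem_filter] at hp
    obtain ⟨hp1, hpn, hpw⟩ := hp
    rw [mem_union]
    by_cases hb : p ∈ BadA n x z
    · exact Or.inl hb
    · right
      rw [hSS, mem_filter]
      refine ⟨hp1, lt_of_lt_of_le ?_ (index_le n x z p hp1 hpn hb)⟩
      exact Real.log_lt_log (by linarith) hpw
  set F := M.filter (fun n => ε * P < ((BigI n x w).card : ℝ)) with hF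
  have hlow : ∀ n ∈ F, ε / 2 * P ≤ ((BadA n x z).card : ℝ) := by
    intro n hn
    rw [hF, mem_filter] at hn
    have h1 : ((BigI n x w).card : ℝ) ≤ (BadA n x z).card + SS.card := by
      exact_mod_cast (card_le_card (hsub n)).trans (card_union_le _ _)
    have h2 := hn.2
    nlinarith
  have hmul : (F.card : ℝ) * (ε / 2 * P) ≤ C₄ * (P * (L / ℓ)) := by
    calc (F.card : ℝ) * (ε / 2 * P) = ∑ _n ∈ F, ε / 2 * P := by rw [sum_const, nsmul_eq_mul]
      _ ≤ ∑ n ∈ F, ((BadA n x z).card : ℝ) := sum_le_sum hlow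
      _ ≤ ∑ n ∈ M, ((BadA n x z).card : ℝ) :=
          sum_le_sum_of_subset_of_nonneg (filter_subset _ _) fun _ _ _ => Nat.cast_nonneg _
      _ ≤ _ := hA
  have h6 : (F.card : ℝ) ≤ 2 * C₄ / ε * (L / ℓ) := by
    have h7 : (F.card : ℝ) * (ε / 2 * P) ≤ 2 * C₄ / ε * (L / ℓ) * (ε / 2 * P) := by
      refine hmul.trans (le_of_eq ?_)
      field_simp
    exact le_of_mul_le_mul_right h7 (by positivity)
  have hlampos : 0 < lam := by linarith
  have h7 : L / ℓ ≤ 2 * (L / lam) := by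
    rw [mul_div_assoc', div_le_div_iff₀ hℓ0 hlampos]
    nlinarith
  have h8 : 2 * C₄ / ε * (L / ℓ) ≤ 16 * C₄ * C₅ * (L / (ε ^ 2 * Real.log w)) := by
    calc 2 * C₄ / ε * (L / ℓ) ≤ 2 * C₄ / ε * (2 * (L / lam)) :=
          mul_le_mul_of_nonneg_left h7 (by positivity)
      _ = 16 * C₄ * C₅ * (L / (ε ^ 2 * Real.log w)) := by
          rw [hlam]
          field_simp
          ring
  have h9 : 16 * C₄ * C₅ * (L / (ε ^ 2 * Real.log w)) ≤
      (6400 * C₅ ^ 2 + 16 * C₄ * C₅) * (L / (ε ^ 2 * Real.log w)) := by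
    apply mul_le_mul_of_nonneg_right _ (by positivity)
    have : 0 ≤ 6400 * C₅ ^ 2 := by positivity
    linarith
  linarith

end Pool.Agent.J4H36
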