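import Pool.Agent.TH893.BR.PowB
import Pool.Agent.J4H36.A6

/-!
The density of the primes for which the index of `n` has no small prime factor.
-/

set_option autoImplicit false

namespace Pool.Agent.J4H36

open NumberField Filter Topology Finset
open Pool.Agent.W401.Cheb
open Pool.Agent.W171.LG
open Pool.Agent.H386R2.Artin (PP artinL artinC artinLim)
open Pool.Agent.H981R3.LN (ql Sk mem_Sk mem_PP)
open Pool.Agent.TH893.BR

open Classical in
/-- the primes `p ≤ x` for which the index of `n` has no prime factor `≤ y` -/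
noncomputable def NoSmall (n : ℤ) (x y : ℕ) : Finset ℕ :=
  (P1 x 1).filter (fun p => ¬ (p : ℤ) ∣ n ∧ ∀ l : ℕ, l.Prime → l ≤ y →
    ¬ (l ∣ p - 1 ∧ (n : ZMod p) ^ ((p - 1) / l) = 1))

/-- the limit density -/
noncomputable def dy (s : Bs) (y : ℕ) : ℝ :=
  dLr Q0 Set.univ (Subgroup.zpowers s.u) ⊥ 1 (PP y) y

open Classical in
theorem noSmall_tendsto (s : Bs) (y : ℕ) :
    Tendsto (fun x => ((NoSmall s.B x y).card : ℝ) / (Nat.primeCounting x : ℝ)) atTop
      (𝓝 (dy s y)) := by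
  have h1 := avg_trunc Q0 Set.univ (Subgroup.zpowers s.u) ⊥ 1 (PP y)
    (fun _ _ _ => Set.mem_univ _) ⟨{s.u}, by simp [Subgroup.zpowers_eq_closure]⟩ ⟨∅, by simp⟩
    (fun l hl => (mem_PP.1 hl).2) y
  obtain ⟨D₀, hD₀, hGF⟩ := GF_triv
  set a : ℕ → ℝ := fun p => if (¬ (p : ℤ) ∣ s.B ∧ ∀ l : ℕ, l.Prime → l ≤ y →
    ¬ (l ∣ p - 1 ∧ ((s.B : ℤ) : ZMod p) ^ ((p - 1) / l) = 1)) then 1 else 0 with ha
  have hM : Tendsto (M a) atTop (𝓝 (dy s y)) := by
    refine M_congr (D := (s.B.natAbs).factorial * D₀)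
      (Nat.mul_pos (Nat.factorial_pos _) hD₀) ?_ h1
    intro p hp hpD
    have : Fact p.Prime := ⟨hp⟩
    have hpB : s.B.natAbs < p := by
      by_contra hcon
      exact hpD (Dvd.dvd.mul_right ((Nat.Prime.dvd_factorial hp).2 (not_lt.1 hcon)) _)
    have hG : GF Q0 Set.univ p := hGF p hp fun h => hpD (Dvd.dvd.mul_left h _)
    have hT : (Tp (⊥ : Subgroup ℚˣ) 1 (PP y) p).filter (fun l => l ≤ y) = ∅ := by
      apply filter_false_of_mem
      intro l hl hly
      unfold Tp at hl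
      rw [mem_filter] at hl
      have hp1 : p - 1 ≠ 0 := by have := hp.two_le; omega
      exact hl.2.1 (mem_PP.2 ⟨hly, ((mem_Sk hp1).1 hl.1).1⟩)
    rw [hT]
    have hgT : gT 1 ∅ = 1 := by
      unfold gT
      simp
    rw [hgT]
    simp only [ha]
    congr 1
    rw [eq_iff_iff]
    unfold gd
    have hnd : ¬ (p : ℤ) ∣ s.B := by
      intro h
      have h2 := Nat.le_of_dvd (Int.natAbs_pos.2 s.B0) (Int.natCast_dvd.1 h)
      omega
    constructor
    · rintro ⟨-, h⟩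
      refine ⟨hG, fun l hl hPW => ?_⟩
      rw [PW_B s hpB, ql_one] at hPW
      exact h l (mem_PP.1 hl).2 (mem_PP.1 hl).1 hPW
    · rintro ⟨-, h⟩
      refine ⟨hnd, fun l hl hly hcon => ?_⟩
      apply h l (mem_PP.2 ⟨hly, hl⟩)
      rw [PW_B s hpB, ql_one]
      exact hcon
  refine hM.congr fun x => ?_
  rw [M_eq]
  congr 1
  simp only [ha]
  rw [← sum_filter, sum_const, nsmul_eq_mul, mul_one]
  congr 2
  ext p
  unfold NoSmall
  rw [mem_filter, mem_filter, mem_P1_one, mem_PP]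
  tauto

/-- the truncated limit density, when the squarefree part has a large prime factor -/
lemma dy_large (s : Bs) (y : ℕ) (hT : ¬ s.PD ⊆ PP y) : dy s y = artinL y := by
  classical
  unfold dy dLr
  have hset : (PP y).powerset.filter (fun K => Disjoint K (PP y)) = {∅} := by
    ext K
    rw [mem_filter, mem_powerset, mem_singleton]
    constructor
    · rintro ⟨h1, h2⟩
      rw [← Finset.bot_eq_empty, ← disjoint_self]
      exact Finset.disjoint_of_subset_right h1 h2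
    · rintro rfl
      exact ⟨Finset.empty_subset _, Finset.disjoint_empty_left _⟩
  rw [hset, sum_singleton]
  simp only [card_empty, pow_zero, prod_empty, Nat.cast_one, div_one, one_mul]
  set x : ℕ → ℝ := fun l => -(1 / ((l : ℝ) * ((l : ℝ) - 1))) with hx
  have e1 : ∀ J ∈ (PP y).powerset, (-1 : ℝ) ^ #J * dn Q0 Set.univ (Subgroup.zpowers s.u) ⊥ 1 J ∅ =
      ∏ l ∈ J, x l := by
    intro J hJ
    rw [mem_powerset] at hJ
    rw [dn_B s J ∅ (fun l hl => (mem_PP.1 (hJ hl)).2) (fun l hl => absurd hl (Finset.notMem_empty l))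
      (Finset.disjoint_empty_right _)]
    rw [if_neg (fun h => hT (h.2.trans (by rw [union_empty]; exact hJ)))]
    simp only [hx]
    rw [Finset.prod_neg]
    simp
  rw [Finset.sum_congr rfl e1]
  have h1 := Finset.prod_add (fun l => x l) (fun _ => (1 : ℝ)) (PP y)
  simp only [Finset.prod_const_one, mul_one] at h1
  rw [← h1]
  unfold artinL
  refine Finset.prod_congr rfl fun l _ => ?_
  simp only [hx]
  ring

lemma dy_small (s : Bs) (y : ℕ) (hy : 2 ≤ y) (hT : s.PD ⊆ PP y) : dy s y = s.cf * artinL y := by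
  classical
  unfold dy
  have h2 : 2 ∈ PP y := mem_PP.2 ⟨hy, Nat.prime_two⟩
  rw [dLr_B s (PP y) (fun l hl => (mem_PP.1 hl).2) y (fun l hl => (mem_PP.1 hl).1) ?_]
  · unfold Bs.e
    rw [if_pos h2]
  · intro l hl
    unfold Bs.T at hl
    rw [mem_insert] at hl
    rcases hl with rfl | hl
    · exact hy
    · exact (mem_PP.1 (hT hl)).1

lemma three_le_PD (s : Bs) {q : ℕ} (hq : q ∈ s.PD) : 3 ≤ q := by
  have h1 := ((mem_PD s).1 hq).1.two_le
  have h2 : q ≠ 2 := fun h => two_notMem_PD s (h ▸ hq)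
  omega

lemma fac_le {q : ℕ} (hq : 3 ≤ q) : 0 ≤ 1 / ((q : ℝ) ^ 2 - (q : ℝ) - 1) ∧
    1 / ((q : ℝ) ^ 2 - (q : ℝ) - 1) ≤ 1 / (q : ℝ) := by
  have hq3 : (3 : ℝ) ≤ q := by exact_mod_cast hq
  have h1 : (q : ℝ) ≤ (q : ℝ) ^ 2 - (q : ℝ) - 1 := by nlinarith
  exact ⟨by apply div_nonneg zero_le_one; linarith, one_div_le_one_div_of_le (by linarith) h1⟩

lemma cf_near (s : Bs) (m : ℕ) (hm : 1 ≤ m) (h : ∃ q ∈ s.PD, m ≤ q) :
    |s.cf - 1| ≤ 1 / (m : ℝ) := by
  classical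
  obtain ⟨q, hq, hmq⟩ := h
  unfold Bs.cf
  have h1 : 1 - ((ArithmeticFunction.moebius s.D.natAbs : ℤ) : ℝ) *
      ∏ q ∈ s.D.natAbs.primeFactors, (1 / ((q : ℝ) ^ 2 - (q : ℝ) - 1)) - 1 =
      -(((ArithmeticFunction.moebius s.D.natAbs : ℤ) : ℝ) *
      ∏ q ∈ s.D.natAbs.primeFactors, (1 / ((q : ℝ) ^ 2 - (q : ℝ) - 1))) := by ring
  rw [h1, abs_neg, abs_mul]
  have h2 : |((ArithmeticFunction.moebius s.D.natAbs : ℤ) : ℝ)| ≤ 1 := by
    exact_mod_cast ArithmeticFunction.abs_moebius_le_one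
  have hPD : s.D.natAbs.primeFactors = s.PD := rfl
  rw [hPD]
  have h3 : ∀ q ∈ s.PD, 0 ≤ 1 / ((q : ℝ) ^ 2 - (q : ℝ) - 1) := fun q hq =>
    (fac_le (three_le_PD s hq)).1
  have hm' : (1 : ℝ) ≤ m := by exact_mod_cast hm
  have hmq' : (m : ℝ) ≤ q := by exact_mod_cast hmq
  have h4 : ∏ q ∈ s.PD, (1 / ((q : ℝ) ^ 2 - (q : ℝ) - 1)) ≤ 1 / (m : ℝ) := by
    rw [← mul_prod_erase _ _ hq]
    have h5 := fac_le (three_le_PD s hq)
    have h6 : ∏ q ∈ s.PD.erase q, (1 / ((q : ℝ) ^ 2 - (q : ℝ) - 1)) ≤ 1 := by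
      apply prod_le_one
      · intro q' hq'
        exact h3 q' (mem_of_mem_erase hq')
      · intro q' hq'
        have h7 := fac_le (three_le_PD s (mem_of_mem_erase hq'))
        refine h7.2.trans ?_
        have h8 : (3 : ℝ) ≤ q' := by exact_mod_cast three_le_PD s (mem_of_mem_erase hq')
        rw [div_le_one (by linarith)]
        linarith
    calc 1 / ((q : ℝ) ^ 2 - (q : ℝ) - 1) * ∏ q ∈ s.PD.erase q, (1 / ((q : ℝ) ^ 2 - (q : ℝ) - 1))
        ≤ 1 / (q : ℝ) * 1 := mul_le_mul h5.2 h6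
          (prod_nonneg fun q' hq' => h3 q' (mem_of_mem_erase hq')) (by positivity)
      _ ≤ 1 / (m : ℝ) := by
        rw [mul_one]
        exact one_div_le_one_div_of_le (by linarith) hmq'
  have h5 : 0 ≤ ∏ q ∈ s.PD, (1 / ((q : ℝ) ^ 2 - (q : ℝ) - 1)) := prod_nonneg h3
  rw [abs_of_nonneg h5]
  nlinarith [abs_nonneg ((ArithmeticFunction.moebius s.D.natAbs : ℤ) : ℝ)]

lemma abs_cf_le (s : Bs) : |s.cf| ≤ 2 := by
  classical
  unfold Bs.cf
  have h2 : |((ArithmeticFunction.moebius s.D.natAbs : ℤ) : ℝ)| ≤ 1 := by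
    exact_mod_cast ArithmeticFunction.abs_moebius_le_one
  have hPD : s.D.natAbs.primeFactors = s.PD := rfl
  rw [hPD]
  have h3 : 0 ≤ ∏ q ∈ s.PD, (1 / ((q : ℝ) ^ 2 - (q : ℝ) - 1)) := prod_nonneg fun q hq =>
    (fac_le (three_le_PD s hq)).1
  have h4 : ∏ q ∈ s.PD, (1 / ((q : ℝ) ^ 2 - (q : ℝ) - 1)) ≤ 1 := by
    apply prod_le_one
    · intro q' hq'
      exact (fac_le (three_le_PD s hq')).1
    · intro q' hq'
      have h7 := fac_le (three_le_PD s hq')
      refine h7.2.trans ?_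
      have h8 : (3 : ℝ) ≤ q' := by exact_mod_cast three_le_PD s hq'
      rw [div_le_one (by linarith)]
      linarith
  have h5 := abs_le.1 h2
  rw [abs_le]
  constructor <;> nlinarith

lemma artinL_bounds (y : ℕ) : 0 ≤ artinL y ∧ artinL y ≤ 1 := by
  unfold artinL
  have h : ∀ l ∈ PP y, 0 ≤ 1 - 1 / ((l : ℝ) * ((l : ℝ) - 1)) ∧
      1 - 1 / ((l : ℝ) * ((l : ℝ) - 1)) ≤ 1 := by
    intro l hl
    have hl2 : (2 : ℝ) ≤ l := by exact_mod_cast (mem_PP.1 hl).2.two_le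
    have h2 : (1 : ℝ) ≤ (l : ℝ) * ((l : ℝ) - 1) := by nlinarith
    have h3 : 1 / ((l : ℝ) * ((l : ℝ) - 1)) ≤ 1 := by
      rw [div_le_one (by linarith)]
      exact h2
    have h4 : 0 ≤ 1 / ((l : ℝ) * ((l : ℝ) - 1)) := by positivity
    constructor <;> linarith
  exact ⟨prod_nonneg fun l hl => (h l hl).1, prod_le_one (fun l hl => (h l hl).1) fun l hl => (h l hl).2⟩

lemma artinC_bounds : 0 ≤ artinC ∧ artinC ≤ 1 := by
  have h : Tendsto artinL atTop (𝓝 artinC) := artinLim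
  exact ⟨ge_of_tendsto' h fun y => (artinL_bounds y).1, le_of_tendsto' h fun y => (artinL_bounds y).2⟩

/-- the truncated densities are close to the density, uniformly -/
theorem dy_close (ε : ℝ) (hε : 0 < ε) : ∃ y₀ : ℕ, ∀ y : ℕ, y₀ ≤ y → ∀ s : Bs,
    |dy s y - s.cf * artinC| ≤ ε := by
  have h : Tendsto artinL atTop (𝓝 artinC) := artinLim
  rw [Metric.tendsto_atTop] at h
  obtain ⟨y₁, hy₁⟩ := h (ε / 4) (by positivity)
  obtain ⟨y₂, hy₂⟩ := exists_nat_gt (4 / ε)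
  refine ⟨max (max y₁ y₂) 2, fun y hy s => ?_⟩
  have hy1 : y₁ ≤ y := (le_max_left _ _).trans ((le_max_left _ _).trans hy)
  have hy2 : y₂ ≤ y := (le_max_right _ _).trans ((le_max_left _ _).trans hy)
  have hy3 : 2 ≤ y := (le_max_right _ _).trans hy
  have h1 := hy₁ y hy1
  rw [Real.dist_eq] at h1
  have hc := artinC_bounds
  by_cases hT : s.PD ⊆ PP y
  · rw [dy_small s y hy3 hT, ← mul_sub, abs_mul]
    have h2 := abs_cf_le s
    have h3 : |s.cf| * |artinL y - artinC| ≤ 2 * (ε / 4) :=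
      mul_le_mul h2 h1.le (abs_nonneg _) (by norm_num)
    linarith
  · rw [dy_large s y hT]
    have h2 : ∃ q ∈ s.PD, y ≤ q := by
      rw [Finset.not_subset] at hT
      obtain ⟨q, hq, hq2⟩ := hT
      refine ⟨q, hq, ?_⟩
      by_contra hcon
      exact hq2 (mem_PP.2 ⟨by omega, ((mem_PD s).1 hq).1⟩)
    have h3 := cf_near s y (by omega) h2
    have hy0 : (0 : ℝ) < y := by exact_mod_cast (by omega : 0 < y)
    have h4 : 1 / (y : ℝ) ≤ ε / 4 := by
      rw [div_le_div_iff₀ hy0 (by norm_num)]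
      have h5 : 4 / ε < y := hy₂.trans_le (by exact_mod_cast hy2)
      rw [div_lt_iff₀ hε] at h5
      linarith
    have h5 : artinL y - s.cf * artinC = (artinL y - artinC) - (s.cf - 1) * artinC := by ring
    rw [h5]
    have h6 : |(s.cf - 1) * artinC| ≤ ε / 4 := by
      rw [abs_mul, abs_of_nonneg hc.1]
      calc |s.cf - 1| * artinC ≤ ε / 4 * 1 := mul_le_mul (h3.trans h4) hc.2 hc.1 (by positivity)
        _ = ε / 4 := mul_one _
    calc |artinL y - artinC - (s.cf - 1) * artinC|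
        ≤ |artinL y - artinC| + |(s.cf - 1) * artinC| := abs_sub _ _
      _ ≤ ε / 4 + ε / 4 := add_le_add h1.le h6
      _ ≤ ε := by linarith

end Pool.Agent.J4H36
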