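import Pool.Agent.J4H36.B1

/-!
The density of the primes for which the index of `n` has neither small nor large prime factors, for all
but boundedly many elements of an independent set.
-/

set_option autoImplicit false

namespace Pool.Agent.J4H36

open NumberField Filter Topology Finset
open Pool.Agent.TH893.BR
open Pool.Agent.H386R2.Artin (PP artinL artinC artinLim)
open Pool.Agent.Y855 (MI)

open Classical in
/-- the primes `p ≤ x` for which all prime factors of the index of `n` lie in `(y, z]` -/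
noncomputable def Mid (n : ℤ) (x y z : ℕ) : Finset ℕ :=
  (P1 x 1).filter (fun p => ¬ (p : ℤ) ∣ n ∧ ∀ l : ℕ, l.Prime → l ∣ (p - 1) / orderOf (n : ZMod p) →
    y < l ∧ l ≤ z)

theorem mid_near (n : ℤ) (x y z : ℕ) (hyz : y ≤ z) :
    ((NoSmall n x y).card : ℝ) - (BadA n x z).card ≤ (Mid n x y z).card ∧
      ((Mid n x y z).card : ℝ) ≤ (NoSmall n x y).card := by
  classical
  constructor
  · have h : NoSmall n x y ⊆ Mid n x y z ∪ BadA n x z := by
      intro p hp
      unfold NoSmall at hp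
      rw [mem_filter] at hp
      obtain ⟨hp1, hpn, hp2⟩ := hp
      obtain ⟨hpp, hpx⟩ := mem_P1_one.1 hp1
      rw [mem_union]
      by_cases hb : p ∈ BadA n x z
      · exact Or.inr hb
      · left
        unfold Mid
        rw [mem_filter]
        refine ⟨hp1, hpn, fun l hl hli => ?_⟩
        have h1 := (dvd_index_iff n p l hpp hpn hl).1 hli
        constructor
        · by_contra hcon
          exact hp2 l hl (not_lt.1 hcon) h1
        · by_contra hcon
          apply hb
          unfold BadA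
          rw [mem_filter]
          exact ⟨hp1, hpn, l, hl, not_le.1 hcon, h1.1, h1.2⟩
    have h1 : ((NoSmall n x y).card : ℝ) ≤ (Mid n x y z).card + (BadA n x z).card := by
      exact_mod_cast (card_le_card h).trans (card_union_le _ _)
    linarith
  · have h : Mid n x y z ⊆ NoSmall n x y := by
      intro p hp
      unfold Mid at hp
      rw [mem_filter] at hp
      obtain ⟨hp1, hpn, hp2⟩ := hp
      obtain ⟨hpp, hpx⟩ := mem_P1_one.1 hp1
      unfold NoSmall
      rw [mem_filter]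
      refine ⟨hp1, hpn, fun l hl hly h => ?_⟩
      have h1 := hp2 l hl ((dvd_index_iff n p l hpp hpn hl).2 h)
      omega
    exact_mod_cast card_le_card h

open Classical in
theorem thmB : ∃ C : ℝ, 0 < C ∧ ∀ ε δ : ℝ, 0 < ε → 0 < δ → δ ≤ 1 → ∃ y₀ : ℕ, ∀ y : ℕ, y₀ ≤ y →
    ∀ M : Finset ℤ, (∀ n ∈ M, n ≠ 0) → MI M → ∃ x₀ : ℕ, ∀ x : ℕ, x₀ ≤ x →
      ∃ E ⊆ M, (E.card : ℝ) ≤ C / (ε * δ) ∧ ∀ n ∈ M, n ∉ E → ∀ s : Bs, s.B = n →
        |((Mid n x y ⌊(x : ℝ) ^ δ⌋₊).card : ℝ) - s.cf * artinC * Nat.primeCounting x| ≤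
          ε * Nat.primeCounting x := by
  obtain ⟨C, hC, hbad⟩ := bad_totalA
  refine ⟨4 * C, by positivity, ?_⟩
  intro ε δ hε hδ hδ1
  obtain ⟨y₀, hy₀⟩ := dy_close (ε / 4) (by positivity)
  refine ⟨y₀, fun y hy M h0 hM => ?_⟩
  -- the small primes
  have hsm : ∀ n ∈ M, ∃ x₁ : ℕ, ∀ x : ℕ, x₁ ≤ x → ∀ s : Bs, s.B = n →
      |((NoSmall n x y).card : ℝ) - s.cf * artinC * Nat.primeCounting x| ≤
        ε / 2 * Nat.primeCounting x := by
    intro n _
    by_cases hn : ∃ s : Bs, s.B = n
    · obtain ⟨s₀, hs₀⟩ := hn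
      have h1 := noSmall_tendsto s₀ y
      rw [Metric.tendsto_atTop] at h1
      obtain ⟨x₁, hx₁⟩ := h1 (ε / 4) (by positivity)
      refine ⟨max x₁ 2, fun x hx s hs => ?_⟩
      have h2 := hx₁ x ((le_max_left _ _).trans hx)
      rw [Real.dist_eq, hs₀] at h2
      have hP : (0 : ℝ) < Nat.primeCounting x := by
        have h3 : 0 < Nat.primeCounting x := by
          rw [← P1_one, card_pos]
          exact ⟨2, mem_P1_one.2 ⟨Nat.prime_two, (le_max_right _ _).trans hx⟩⟩
        exact_mod_cast h3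
      -- the density does not depend on the representation
      have h4 : dy s y = dy s₀ y := by
        unfold dy
        have : s.u = s₀.u := by
          apply Units.ext
          rw [s.u_coe, s₀.u_coe, hs, hs₀]
        rw [this]
      have h3 := hy₀ y hy s
      rw [h4] at h3
      have h5 : |((NoSmall n x y).card : ℝ) / Nat.primeCounting x - s.cf * artinC| ≤ ε / 2 := by
        calc |((NoSmall n x y).card : ℝ) / Nat.primeCounting x - s.cf * artinC|
            = |(((NoSmall n x y).card : ℝ) / Nat.primeCounting x - dy s₀ y) +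
                (dy s₀ y - s.cf * artinC)| := by ring_nf
          _ ≤ _ := (abs_add_le _ _).trans (add_le_add h2.le h3)
          _ = ε / 2 := by ring
      have h6 : ((NoSmall n x y).card : ℝ) - s.cf * artinC * Nat.primeCounting x =
          (((NoSmall n x y).card : ℝ) / Nat.primeCounting x - s.cf * artinC) *
            Nat.primeCounting x := by
        field_simp
      rw [h6, abs_mul, abs_of_pos hP]
      exact mul_le_mul_of_nonneg_right h5 hP.le
    · exact ⟨0, fun x _ s hs => absurd ⟨s, hs⟩ hn⟩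
  choose! x₁ hx₁ using hsm
  -- the parameter `T = log x`
  have hlog : Tendsto (fun x : ℕ => Real.log (x : ℝ)) atTop atTop :=
    Real.tendsto_log_atTop.comp tendsto_natCast_atTop_atTop
  have hev1 : ∀ᶠ x : ℕ in atTop, (M.card : ℝ) ≤ Real.log x := hlog.eventually_ge_atTop _
  have hev2 : ∀ᶠ x : ℕ in atTop, ∀ n ∈ M, |(n : ℝ)| ≤ Real.exp (Real.log x) := by
    rw [Filter.eventually_all_finset]
    intro n _
    have : Tendsto (fun x : ℕ => Real.exp (Real.log (x : ℝ))) atTop atTop :=
      Real.tendsto_exp_atTop.comp hlog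
    exact this.eventually_ge_atTop _
  have hev3 : ∀ᶠ x : ℕ in atTop, 3 ≤ Real.log (x : ℝ) := hlog.eventually_ge_atTop _
  have hev4 : ∀ᶠ x : ℕ in atTop, (400 / δ ^ 2) * Real.log (Real.log x) ≤ Real.log x := by
    have h1 : ∀ᶠ t : ℝ in atTop, ‖Real.log t‖ ≤ (δ ^ 2 / 400) * ‖t‖ :=
      Real.isLittleO_log_id_atTop.bound (by positivity)
    filter_upwards [hlog.eventually h1, hev3] with x hx h3
    have h4 : (0 : ℝ) ≤ Real.log (Real.log x) := Real.log_nonneg (by linarith)
    rw [Real.norm_of_nonneg h4, Real.norm_of_nonneg (by linarith)] at hx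
    rw [div_mul_eq_mul_div, div_le_iff₀ (by positivity)]
    nlinarith
  have hev5 : ∀ᶠ x : ℕ in atTop, (y : ℝ) + 2 ≤ (x : ℝ) ^ (δ / 2) :=
    ((tendsto_rpow_atTop (by positivity)).comp tendsto_natCast_atTop_atTop).eventually_ge_atTop _
  obtain ⟨x₂, hx₂⟩ := eventually_atTop.1 (hev1.and (hev2.and (hev3.and (hev4.and hev5))))
  refine ⟨max (max x₂ 3) (M.sup x₁), fun x hx => ?_⟩
  have hxa : x₂ ≤ x := (le_max_left _ _).trans ((le_max_left _ _).trans hx)
  have hx3 : 3 ≤ x := (le_max_right _ _).trans ((le_max_left _ _).trans hx)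
  have hxb : ∀ n ∈ M, x₁ n ≤ x := fun n hn => (Finset.le_sup hn).trans ((le_max_right _ _).trans hx)
  obtain ⟨e1, e2, e3, e4, e5⟩ := hx₂ x hxa
  set L := Real.log x with hL
  have hx3' : (3 : ℝ) ≤ x := by exact_mod_cast hx3
  have hx0 : (0 : ℝ) < x := by linarith
  set z : ℕ := ⌊(x : ℝ) ^ δ⌋₊ with hz
  have hxδ2 : (x : ℝ) ^ δ = (x : ℝ) ^ (δ / 2) * (x : ℝ) ^ (δ / 2) := by
    rw [← Real.rpow_add hx0]
    congr 1
    ring
  have hy0 : (0 : ℝ) ≤ y := Nat.cast_nonneg y
  have hzlow : (x : ℝ) ^ (δ / 2) ≤ z := by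
    have h1 : (x : ℝ) ^ δ < z + 1 := Nat.lt_floor_add_one _
    nlinarith
  have hzy : y ≤ z := by
    have : (y : ℝ) ≤ z := by linarith
    exact_mod_cast this
  have hz2 : 2 ≤ z := by
    have : (2 : ℝ) ≤ z := by linarith
    exact_mod_cast this
  have hzx : z ≤ x := by
    have h1 : (z : ℝ) ≤ x := by
      calc (z : ℝ) ≤ (x : ℝ) ^ δ := Nat.floor_le (by positivity)
        _ ≤ (x : ℝ) ^ (1 : ℝ) := Real.rpow_le_rpow_of_exponent_le (by linarith) hδ1
        _ = x := Real.rpow_one _
    exact_mod_cast h1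
  have hzpos : (0 : ℝ) < z := by exact_mod_cast (by omega : 0 < z)
  have hlz : δ / 2 * L ≤ Real.log z := by
    have h1 := Real.log_le_log (by positivity) hzlow
    rwa [Real.log_rpow hx0] at h1
  have hlz0 : 0 < Real.log z := by
    have : 0 < δ / 2 * L := by positivity
    linarith
  have hcond : 100 * (L * Real.log L) ≤ (Real.log z) ^ 2 := by
    have h1 : (δ / 2 * L) ^ 2 ≤ (Real.log z) ^ 2 := pow_le_pow_left₀ (by positivity) hlz 2
    have h2 : 400 * Real.log L ≤ δ ^ 2 * L := by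
      rw [div_mul_eq_mul_div, div_le_iff₀ (by positivity)] at e4
      linarith
    have h3 : L * (400 * Real.log L) ≤ L * (δ ^ 2 * L) :=
      mul_le_mul_of_nonneg_left h2 (by linarith)
    nlinarith
  have hA := hbad x z L M hx3 hz2 hzx le_rfl e3 hcond h0 hM e1 e2
  rw [← hL] at hA
  set P : ℝ := (Nat.primeCounting x : ℝ) with hP
  have hP0 : 0 < P := by
    have h3 : 0 < Nat.primeCounting x := by
      rw [← P1_one, card_pos]
      exact ⟨2, mem_P1_one.2 ⟨Nat.prime_two, by omega⟩⟩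
    rw [hP]
    exact_mod_cast h3
  have hLz : L / Real.log z ≤ 2 / δ := by
    rw [div_le_div_iff₀ hlz0 hδ]
    linarith
  refine ⟨M.filter (fun n => ε / 2 * P < ((BadA n x z).card : ℝ)), filter_subset _ _, ?_, ?_⟩
  · set E := M.filter (fun n => ε / 2 * P < ((BadA n x z).card : ℝ)) with hE
    have h1 : (E.card : ℝ) * (ε / 2 * P) ≤ C * (P * (2 / δ)) := by
      calc (E.card : ℝ) * (ε / 2 * P) = ∑ _n ∈ E, ε / 2 * P := by rw [sum_const, nsmul_eq_mul]
        _ ≤ ∑ n ∈ E, ((BadA n x z).card : ℝ) := sum_le_sum fun n hn => (mem_filter.1 hn).2.le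
        _ ≤ ∑ n ∈ M, ((BadA n x z).card : ℝ) :=
            sum_le_sum_of_subset_of_nonneg (filter_subset _ _) fun _ _ _ => Nat.cast_nonneg _
        _ ≤ C * (P * (L / Real.log z)) := hA
        _ ≤ C * (P * (2 / δ)) := by
            apply mul_le_mul_of_nonneg_left _ hC.le
            exact mul_le_mul_of_nonneg_left hLz hP0.le
    have h2 : (E.card : ℝ) * (ε / 2 * P) ≤ 4 * C / (ε * δ) * (ε / 2 * P) := by
      refine h1.trans (le_of_eq ?_)
      field_simp
      ring
    exact le_of_mul_le_mul_right h2 (by positivity)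
  · intro n hnM hnE s hs
    have h1 : ((BadA n x z).card : ℝ) ≤ ε / 2 * P := by
      by_contra hcon
      exact hnE (mem_filter.2 ⟨hnM, not_le.1 hcon⟩)
    have h2 := hx₁ n hnM x (hxb n hnM) s hs
    rw [← hP] at h2
    have h3 := mid_near n x y z hzy
    rw [abs_le] at h2 ⊢
    have h4 : (0 : ℝ) ≤ (BadA n x z).card := Nat.cast_nonneg _
    constructor <;> linarith [h3.1, h3.2, h2.1, h2.2]

end Pool.Agent.J4H36
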